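import Pool.Agent.Run7.h215.TIL.Defs

set_option autoImplicit false
set_option linter.unusedSectionVars false

/-!
# Tilings of the symmetric group by transpositions

If `Y` and the transpositions tile the symmetric group, then the function which counts how often `Y`
takes a colouring `c` to a word `w` is mapped to a constant by the sum of all transpositions.  The sum
of all transpositions is positive definite on the functions on the words of content `μ`, if the number
of pairs of equal letters is larger than the sum of the `min (μ a) (μ b)`; so the function is constant.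
-/

namespace Pool.Agent.Run7.h215.TIL

open Finset Equiv

section Positivity

variable {α β : Type} [Fintype α] [DecidableEq α] [Fintype β] [DecidableEq β]

/-- exchange the letters `a`, `b` at the position `j` -/
def flip (a b : β) (j : α) (v : α → β) : α → β := Function.update v j (Equiv.swap a b (v j))

theorem flip_invol (a b : β) (j : α) : Function.Involutive (flip a b j) := by
  intro v
  unfold flip
  funext k
  by_cases hk : k = j
  · subst hk; simp
  · simp [hk]

theorem flip_same (a b : β) (j : α) (v : α → β) : flip a b j v j = b ↔ v j = a := by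
  unfold flip
  rw [Function.update_self, Equiv.swap_apply_eq_iff, Equiv.swap_apply_right]

theorem flip_of (a b : β) (j : α) (v : α → β) (h : v j = a) :
    flip a b j v = Function.update v j b := by
  unfold flip
  rw [h, Equiv.swap_apply_left]

theorem update_swap (b : β) (i j : α) (hij : i ≠ j) (v : α → β) (h : v i = v j) :
    (Function.update v j b) ∘ Equiv.swap i j = Function.update v i b := by
  funext k
  by_cases hk : k = i
  · subst hk; simp
  · by_cases hk' : k = j
    · subst hk'
      simp [hij, Ne.symm hij, h]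
    · rw [Function.comp_apply, Equiv.swap_apply_of_ne_of_ne hk hk', Function.update_of_ne hk',
        Function.update_of_ne hk]

theorem term_eq (u : (α → β) → ℝ) (a b : β) (i j : α) :
    (∑ v : α → β, if v i = a ∧ v j = a then
      u (Function.update v i b) * u (Function.update v j b) else 0) =
    ∑ w : α → β, ((if i = j ∧ w j = b then u w ^ 2 else 0) +
      (if i ≠ j ∧ w i = a ∧ w j = b then u w * u (w ∘ Equiv.swap i j) else 0)) := by
  rw [← Equiv.sum_comp (Function.Involutive.toPerm _ (flip_invol a b j)) (fun w : α → β =>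
    ((if i = j ∧ w j = b then u w ^ 2 else 0) +
      (if i ≠ j ∧ w i = a ∧ w j = b then u w * u (w ∘ Equiv.swap i j) else 0)))]
  refine Finset.sum_congr rfl fun v _ => ?_
  simp only [Function.Involutive.coe_toPerm, flip_same]
  by_cases hij : i = j
  · subst hij
    by_cases hv : v i = a
    · simp only [hv, and_self, if_true, ne_eq, not_true_eq_false, false_and, if_false, add_zero]
      rw [flip_of a b i v hv, sq]
    · simp [hv]
  · have h1 : flip a b j v i = v i := by
      unfold flip
      rw [Function.update_of_ne hij]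
    rw [h1]
    by_cases hv : v i = a ∧ v j = a
    · rw [flip_of a b j v hv.2]
      simp only [hv, and_self, if_true, ne_eq, hij, not_false_eq_true, false_and, if_false,
        zero_add]
      rw [update_swap b i j hij v (hv.1.trans hv.2.symm), mul_comm]
    · rw [if_neg hv]
      have h2 : ¬ (i ≠ j ∧ v i = a ∧ v j = a) := fun h => hv h.2
      rw [if_neg h2, if_neg (fun h => hij h.1)]
      simp

/-- the contribution of the exchanges of a letter `a` with a letter `b` -/
def PP (u : (α → β) → ℝ) (a b : β) : ℝ :=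
  ∑ i : α, ∑ j : α, ∑ w : α → β,
    if i ≠ j ∧ w i = a ∧ w j = b then u w * u (w ∘ Equiv.swap i j) else 0

theorem PP_symm (u : (α → β) → ℝ) (a b : β) : PP u a b = PP u b a := by
  unfold PP
  rw [Finset.sum_comm]
  refine Finset.sum_congr rfl fun i _ => Finset.sum_congr rfl fun j _ =>
    Finset.sum_congr rfl fun w _ => ?_
  rw [Equiv.swap_comm]
  by_cases h : i ≠ j ∧ w i = b ∧ w j = a
  · rw [if_pos h, if_pos ⟨h.1.symm, h.2.2, h.2.1⟩]
  · rw [if_neg h, if_neg (fun h' => h ⟨h'.1.symm, h'.2.2, h'.2.1⟩)]

theorem PP_ge (u : (α → β) → ℝ) (a b : β) :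
    0 ≤ PP u a b + ∑ j : α, ∑ w : α → β, if w j = b then u w ^ 2 else 0 := by
  have h0 : 0 ≤ ∑ v : α → β, (∑ i : α, if v i = a then u (Function.update v i b) else 0) ^ 2 :=
    Finset.sum_nonneg fun v _ => sq_nonneg _
  have h1 : ∑ v : α → β, (∑ i : α, if v i = a then u (Function.update v i b) else 0) ^ 2 =
      ∑ i : α, ∑ j : α, ∑ v : α → β, if v i = a ∧ v j = a then
        u (Function.update v i b) * u (Function.update v j b) else 0 := by
    have h2 : ∀ v : α → β, (∑ i : α, if v i = a then u (Function.update v i b) else 0) ^ 2 =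
        ∑ i : α, ∑ j : α, if v i = a ∧ v j = a then
          u (Function.update v i b) * u (Function.update v j b) else 0 := by
      intro v
      rw [sq, Finset.sum_mul_sum]
      refine Finset.sum_congr rfl fun i _ => Finset.sum_congr rfl fun j _ => ?_
      by_cases h1 : v i = a <;> by_cases h2 : v j = a <;> simp [h1, h2]
    simp only [h2]
    rw [Finset.sum_comm]
    refine Finset.sum_congr rfl fun i _ => ?_
    rw [Finset.sum_comm]
  rw [h1] at h0
  simp only [term_eq, Finset.sum_add_distrib] at h0
  refine h0.trans (le_of_eq ?_)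
  unfold PP
  rw [add_comm]
  congr 1
  refine Finset.sum_congr rfl fun i _ => ?_
  rw [Finset.sum_comm]
  refine Finset.sum_congr rfl fun w _ => ?_
  rw [Finset.sum_eq_single i]
  · simp
  · intro j _ hj
    rw [if_neg (fun h => hj h.1.symm)]
  · intro h
    exact absurd (Finset.mem_univ i) h

/-- the quadratic form of all exchanges -/
def QQ (u : (α → β) → ℝ) : ℝ :=
  ∑ i : α, ∑ j : α, ∑ w : α → β, if i ≠ j then u w * u (w ∘ Equiv.swap i j) else 0

theorem QQ_eq (u : (α → β) → ℝ) : QQ u = ∑ a : β, ∑ b : β, PP u a b := by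
  unfold QQ PP
  have h : ∀ (i j : α) (w : α → β), (if i ≠ j then u w * u (w ∘ Equiv.swap i j) else 0) =
      ∑ a : β, ∑ b : β, if i ≠ j ∧ w i = a ∧ w j = b then u w * u (w ∘ Equiv.swap i j) else 0 := by
    intro i j w
    rw [Finset.sum_eq_single (w i)]
    · rw [Finset.sum_eq_single (w j)]
      · simp
      · intro b _ hb
        rw [if_neg (fun h => hb h.2.2.symm)]
      · intro h
        exact absurd (Finset.mem_univ _) h
    · intro a _ ha
      refine Finset.sum_eq_zero fun b _ => ?_
      rw [if_neg (fun h => ha h.2.1.symm)]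
    · intro h
      exact absurd (Finset.mem_univ _) h
  simp only [h]
  have e1 : ∀ i : α, ∑ j : α, ∑ w : α → β, ∑ a : β, ∑ b : β,
      (if i ≠ j ∧ w i = a ∧ w j = b then u w * u (w ∘ Equiv.swap i j) else 0) =
      ∑ a : β, ∑ b : β, ∑ j : α, ∑ w : α → β,
      (if i ≠ j ∧ w i = a ∧ w j = b then u w * u (w ∘ Equiv.swap i j) else 0) := by
    intro i
    have e2 : ∀ j : α, ∑ w : α → β, ∑ a : β, ∑ b : β,
        (if i ≠ j ∧ w i = a ∧ w j = b then u w * u (w ∘ Equiv.swap i j) else 0) =
        ∑ a : β, ∑ b : β, ∑ w : α → β,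
        (if i ≠ j ∧ w i = a ∧ w j = b then u w * u (w ∘ Equiv.swap i j) else 0) := by
      intro j
      rw [Finset.sum_comm]
      refine Finset.sum_congr rfl fun a _ => ?_
      rw [Finset.sum_comm]
    simp only [e2]
    rw [Finset.sum_comm]
    refine Finset.sum_congr rfl fun a _ => ?_
    rw [Finset.sum_comm]
  simp only [e1]
  rw [Finset.sum_comm]
  refine Finset.sum_congr rfl fun a _ => ?_
  rw [Finset.sum_comm]

/-- the number of letters `a` -/
def cnt (w : α → β) (a : β) : ℕ := (Finset.univ.filter fun i => w i = a).card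

theorem sum_cnt (w : α → β) (a : β) (x : ℝ) :
    ∑ i : α, (if w i = a then x else 0) = cnt w a * x := by
  rw [← Finset.sum_filter, Finset.sum_const, nsmul_eq_mul]
  rfl

theorem PP_diag (u : (α → β) → ℝ) (a : β) (m : ℕ) (hu : ∀ w, u w ≠ 0 → cnt w a = m) :
    PP u a a = ((m : ℝ) * m - m) * ∑ w : α → β, u w ^ 2 := by
  unfold PP
  have h1 : ∀ (i j : α) (w : α → β),
      (if i ≠ j ∧ w i = a ∧ w j = a then u w * u (w ∘ Equiv.swap i j) else 0) =
      (if w i = a then (if w j = a then u w ^ 2 else 0) else 0) -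
        (if i = j then (if w j = a then u w ^ 2 else 0) else 0) := by
    intro i j w
    by_cases hij : i = j
    · subst hij
      by_cases h : w i = a <;> simp [h]
    · by_cases h1 : w i = a <;> by_cases h2 : w j = a
      · have : w ∘ Equiv.swap i j = w := by
          funext k
          by_cases hk : k = i
          · subst hk; simp [h1, h2]
          · by_cases hk' : k = j
            · subst hk'; simp [h1, h2]
            · rw [Function.comp_apply, Equiv.swap_apply_of_ne_of_ne hk hk']
        rw [this]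
        simp [hij, h1, h2, sq]
      · simp [hij, h1, h2]
      · simp [hij, h1, h2]
      · simp [hij, h1, h2]
  simp only [h1, Finset.sum_sub_distrib]
  have h3 : ∑ i : α, ∑ j : α, ∑ w : α → β,
      (if w i = a then (if w j = a then u w ^ 2 else 0) else 0) =
      ∑ w : α → β, ((cnt w a : ℝ) * (cnt w a * u w ^ 2)) := by
    have h4 : ∀ w : α → β, ((cnt w a : ℝ) * (cnt w a * u w ^ 2)) =
        ∑ i : α, ∑ j : α, (if w i = a then (if w j = a then u w ^ 2 else 0) else 0) := by
      intro w
      rw [← sum_cnt w a (u w ^ 2), ← sum_cnt w a]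
      refine Finset.sum_congr rfl fun i _ => ?_
      by_cases h : w i = a <;> simp [h]
    simp only [h4]
    symm
    rw [Finset.sum_comm]
    refine Finset.sum_congr rfl fun i _ => ?_
    rw [Finset.sum_comm]
  have h5 : ∑ i : α, ∑ j : α, ∑ w : α → β,
      (if i = j then (if w j = a then u w ^ 2 else 0) else 0) =
      ∑ w : α → β, ((cnt w a : ℝ) * u w ^ 2) := by
    have h4 : ∀ w : α → β, ((cnt w a : ℝ) * u w ^ 2) =
        ∑ i : α, (if w i = a then u w ^ 2 else 0) := by
      intro w
      rw [← sum_cnt w a]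
    simp only [h4]
    rw [Finset.sum_comm (s := (Finset.univ : Finset (α → β)))]
    refine Finset.sum_congr rfl fun i _ => ?_
    rw [Finset.sum_comm]
    refine Finset.sum_congr rfl fun w _ => ?_
    rw [Finset.sum_eq_single i]
    · simp
    · intro j _ hj
      rw [if_neg (Ne.symm hj)]
    · intro h
      exact absurd (Finset.mem_univ i) h
  rw [h3, h5, ← Finset.sum_sub_distrib, Finset.mul_sum]
  refine Finset.sum_congr rfl fun w _ => ?_
  by_cases hw : u w = 0
  · rw [hw]; ring
  · rw [hu w hw]; ring

theorem PP_lower (u : (α → β) → ℝ) (a b : β) (m : ℕ) (hu : ∀ w, u w ≠ 0 → cnt w b = m) :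
    -((m : ℝ) * ∑ w : α → β, u w ^ 2) ≤ PP u a b := by
  have h := PP_ge u a b
  have h1 : ∑ j : α, ∑ w : α → β, (if w j = b then u w ^ 2 else 0) =
      (m : ℝ) * ∑ w : α → β, u w ^ 2 := by
    rw [Finset.sum_comm, Finset.mul_sum]
    refine Finset.sum_congr rfl fun w _ => ?_
    rw [sum_cnt]
    by_cases hw : u w = 0
    · rw [hw]; ring
    · rw [hu w hw]
  rw [h1] at h
  linarith

theorem QQ_lower (u : (α → β) → ℝ) (μ : β → ℕ) (hu : ∀ w, u w ≠ 0 → ∀ a, cnt w a = μ a) :
    ((∑ a : β, (μ a * μ a - μ a : ℝ)) - ∑ a : β, ∑ b : β, if a ≠ b then (min (μ a) (μ b) : ℝ) else 0)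
      * ∑ w : α → β, u w ^ 2 ≤ QQ u := by
  rw [QQ_eq, sub_mul, Finset.sum_mul, Finset.sum_mul, ← Finset.sum_sub_distrib]
  refine Finset.sum_le_sum fun a _ => ?_
  have hS : 0 ≤ ∑ w : α → β, u w ^ 2 := Finset.sum_nonneg fun w _ => sq_nonneg _
  have h1 : ∀ b : β, (if a = b then (μ a * μ a - μ a : ℝ) * ∑ w : α → β, u w ^ 2 else 0) -
      (if a ≠ b then (min (μ a) (μ b) : ℝ) else 0) * ∑ w : α → β, u w ^ 2 ≤ PP u a b := by
    intro b
    by_cases hab : a = b
    · subst hab
      rw [PP_diag u a (μ a) (fun w hw => hu w hw a)]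
      simp
    · rw [if_neg hab, if_pos hab, zero_sub]
      rcases le_total (μ a) (μ b) with h | h
      · rw [min_eq_left (by exact_mod_cast h), PP_symm]
        exact PP_lower u b a (μ a) (fun w hw => hu w hw a)
      · rw [min_eq_right (by exact_mod_cast h)]
        exact PP_lower u a b (μ b) (fun w hw => hu w hw b)
  have h2 := Finset.sum_le_sum (s := Finset.univ) fun b _ => h1 b
  rw [Finset.sum_sub_distrib, Finset.sum_ite_eq Finset.univ a, if_pos (Finset.mem_univ a),
    ← Finset.sum_mul] at h2
  exact h2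

end Positivity

section Core

variable {α β : Type} [Fintype α] [DecidableEq α] [Fintype β] [DecidableEq β]

/-- twice the difference of the number of pairs of equal letters and the sum of the minima -/
noncomputable def CC (μ : β → ℕ) : ℝ :=
  (∑ a : β, (μ a * μ a - μ a : ℝ)) - ∑ a : β, ∑ b : β, if a ≠ b then (min (μ a) (μ b) : ℝ) else 0

theorem core (u : (α → β) → ℝ) (μ : β → ℕ) (hu : ∀ w, u w ≠ 0 → ∀ a, cnt w a = μ a) (ε : ℝ)
    (heq : ∀ w, ε * u w + ∑ i : α, ∑ j : α, (if i ≠ j then u (w ∘ Equiv.swap i j) else 0) = 0)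
    (hpos : 0 < ε + CC μ) : ∀ w, u w = 0 := by
  have h1 : ε * ∑ w : α → β, u w ^ 2 + QQ u = 0 := by
    have h2 : QQ u = ∑ w : α → β, u w *
        ∑ i : α, ∑ j : α, (if i ≠ j then u (w ∘ Equiv.swap i j) else 0) := by
      unfold QQ
      have h3 : ∀ w : α → β, u w *
          ∑ i : α, ∑ j : α, (if i ≠ j then u (w ∘ Equiv.swap i j) else 0) =
          ∑ i : α, ∑ j : α, (if i ≠ j then u w * u (w ∘ Equiv.swap i j) else 0) := by
        intro w
        rw [Finset.mul_sum]
        refine Finset.sum_congr rfl fun i _ => ?_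
        rw [Finset.mul_sum]
        refine Finset.sum_congr rfl fun j _ => ?_
        by_cases h : i ≠ j
        · rw [if_pos h, if_pos h]
        · rw [if_neg h, if_neg h, mul_zero]
      simp only [h3]
      symm
      rw [Finset.sum_comm]
      refine Finset.sum_congr rfl fun i _ => ?_
      rw [Finset.sum_comm]
    rw [h2, Finset.mul_sum, ← Finset.sum_add_distrib]
    refine Finset.sum_eq_zero fun w _ => ?_
    have := heq w
    linear_combination (u w) * this
  have h4 := QQ_lower u μ hu
  change CC μ * _ ≤ _ at h4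
  have hS : 0 ≤ ∑ w : α → β, u w ^ 2 := Finset.sum_nonneg fun w _ => sq_nonneg _
  have h5 : ∑ w : α → β, u w ^ 2 = 0 := by
    by_contra hne
    have h6 : 0 < ∑ w : α → β, u w ^ 2 := lt_of_le_of_ne hS (Ne.symm hne)
    have h7 := mul_pos hpos h6
    nlinarith
  intro w
  have h8 := (Finset.sum_eq_zero_iff_of_nonneg (fun w _ => sq_nonneg (u w))).1 h5 w
    (Finset.mem_univ w)
  exact pow_eq_zero_iff (two_ne_zero) |>.1 h8

/-- sum over pairs and sum over transpositions -/
theorem swap_sum (G : Perm α → ℝ) :
    ∑ i : α, ∑ j : α, (if i ≠ j then G (Equiv.swap i j) else 0) =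
      2 * ∑ t : Perm α, (open Classical in if t.IsSwap then G t else 0) := by
  classical
  have h1 : ∀ i j : α, (if i ≠ j then G (Equiv.swap i j) else 0) =
      ∑ t : Perm α, if i ≠ j ∧ Equiv.swap i j = t then G t else 0 := by
    intro i j
    rw [Finset.sum_eq_single (Equiv.swap i j)]
    · by_cases h : i ≠ j <;> simp [h]
    · intro t _ ht
      rw [if_neg (fun h => ht h.2.symm)]
    · intro h
      exact absurd (Finset.mem_univ _) h
  simp only [h1]
  have h2 : ∑ i : α, ∑ j : α, ∑ t : Perm α, (if i ≠ j ∧ Equiv.swap i j = t then G t else 0) =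
      ∑ t : Perm α, ∑ i : α, ∑ j : α, (if i ≠ j ∧ Equiv.swap i j = t then G t else 0) := by
    symm
    rw [Finset.sum_comm]
    refine Finset.sum_congr rfl fun i _ => ?_
    rw [Finset.sum_comm]
  rw [h2, Finset.mul_sum]
  refine Finset.sum_congr rfl fun t _ => ?_
  by_cases ht : t.IsSwap
  · rw [if_pos ht]
    obtain ⟨x, y, hxy, rfl⟩ := ht
    have h3 : ∀ i j : α, (if i ≠ j ∧ Equiv.swap i j = Equiv.swap x y then G (Equiv.swap x y)
        else 0) = (if i = x then (if j = y then G (Equiv.swap x y) else 0) else 0) +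
          (if i = y then (if j = x then G (Equiv.swap x y) else 0) else 0) := by
      intro i j
      by_cases h : i ≠ j ∧ Equiv.swap i j = Equiv.swap x y
      · rw [if_pos h]
        obtain ⟨hij, he⟩ := h
        have h4 : Equiv.swap i j x = y := by rw [he, Equiv.swap_apply_left]
        by_cases hx : x = i
        · subst hx
          rw [Equiv.swap_apply_left] at h4
          subst h4
          simp [hxy]
        · by_cases hx' : x = j
          · subst hx'
            rw [Equiv.swap_apply_right] at h4
            subst h4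
            simp [Ne.symm hxy]
          · rw [Equiv.swap_apply_of_ne_of_ne hx hx'] at h4
            exact absurd h4 hxy
      · rw [if_neg h]
        have h5 : ¬ (i = x ∧ j = y) := by
          rintro ⟨rfl, rfl⟩
          exact h ⟨hxy, rfl⟩
        have h6 : ¬ (i = y ∧ j = x) := by
          rintro ⟨rfl, rfl⟩
          exact h ⟨hxy.symm, Equiv.swap_comm _ _⟩
        by_cases h7 : i = x <;> by_cases h8 : j = y <;> by_cases h9 : i = y <;>
          by_cases h10 : j = x <;> simp_all
    simp only [h3, Finset.sum_add_distrib]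
    rw [Finset.sum_comm (f := fun i j => if i = x then (if j = y then G (Equiv.swap x y) else 0)
      else 0), Finset.sum_comm (f := fun i j => if i = y then
        (if j = x then G (Equiv.swap x y) else 0) else 0)]
    simp only [Finset.sum_ite_eq', Finset.mem_univ, if_true]
    ring
  · rw [if_neg ht, mul_zero]
    refine Finset.sum_eq_zero fun i _ => Finset.sum_eq_zero fun j _ => ?_
    rw [if_neg]
    rintro ⟨hij, rfl⟩
    exact ht ⟨i, j, hij, rfl⟩

/-- unique factorisation and sums -/
theorem tiling_sum (T Y : Set (Perm α))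
    (hY : ∀ g : Perm α, ∃! p : Perm α × Perm α, p.1 ∈ T ∧ p.2 ∈ Y ∧ p.1 * p.2 = g)
    (F : Perm α → ℝ) :
    ∑ g : Perm α, F g = ∑ t : Perm α, ∑ y : Perm α,
      (open Classical in if t ∈ T ∧ y ∈ Y then F (t * y) else 0) := by
  classical
  have h1 : ∀ g : Perm α, F g = ∑ p : Perm α × Perm α,
      if p.1 ∈ T ∧ p.2 ∈ Y ∧ p.1 * p.2 = g then F g else 0 := by
    intro g
    obtain ⟨p, hp, hu⟩ := hY g
    rw [Finset.sum_eq_single p]
    · rw [if_pos hp]
    · intro q _ hq
      rw [if_neg (fun h => hq (hu q h))]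
    · intro h
      exact absurd (Finset.mem_univ _) h
  rw [Finset.sum_congr rfl fun g _ => h1 g, Finset.sum_comm, Fintype.sum_prod_type]
  refine Finset.sum_congr rfl fun t _ => Finset.sum_congr rfl fun y _ => ?_
  rw [Finset.sum_eq_single (t * y)]
  · by_cases h : t ∈ T ∧ y ∈ Y
    · rw [if_pos h, if_pos ⟨h.1, h.2, rfl⟩]
    · rw [if_neg h, if_neg (fun h' => h ⟨h'.1, h'.2.1⟩)]
  · intro g _ hg
    rw [if_neg (fun h => hg h.2.2.symm)]
  · intro h
    exact absurd (Finset.mem_univ _) h

/-- the number of permutations which take the colouring `c` to the word `w` -/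
def hh (c w : α → β) : ℝ := ∑ g : Perm α, if c ∘ (g⁻¹ : Perm α) = w then 1 else 0

theorem comp_iff (c w : α → β) (t y : Perm α) :
    c ∘ ((t * y)⁻¹ : Perm α) = w ↔ c ∘ (y⁻¹ : Perm α) = w ∘ t := by
  constructor
  · intro h
    funext x
    have := congrFun h (t x)
    simpa [mul_inv_rev] using this
  · intro h
    funext x
    have := congrFun h (t⁻¹ x)
    simpa [mul_inv_rev] using this

theorem hh_comp (c w : α → β) (t : Perm α) : hh c (w ∘ t) = hh c w := by
  unfold hh
  rw [← Equiv.sum_comp (Equiv.mulLeft t) (fun g : Perm α =>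
    if c ∘ (g⁻¹ : Perm α) = w then (1 : ℝ) else 0)]
  refine Finset.sum_congr rfl fun g _ => ?_
  simp only [Equiv.coe_mulLeft, comp_iff]

theorem hh_self (c : α → β) : hh c c = ∏ a : β, ((cnt c a).factorial : ℝ) := by
  unfold hh
  rw [Finset.sum_boole]
  have h1 : (Finset.univ.filter fun g : Perm α => c ∘ (g⁻¹ : Perm α) = c) =
      Finset.univ.filter fun g : Perm α => c ∘ g = c := by
    refine Finset.filter_congr fun g _ => ?_
    constructor
    · intro h
      funext x
      have := congrFun h (g x)
      simpa using this.symm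
    · intro h
      funext x
      have := congrFun h (g⁻¹ x)
      simpa using this.symm
  rw [h1]
  have h2 := DomMulAct.stabilizer_card c
  rw [Fintype.card_subtype] at h2
  have h3 : ∀ a : β, Fintype.card {x // c x = a} = cnt c a := by
    intro a
    rw [Fintype.card_subtype]
    rfl
  simp only [h3] at h2
  rw [h2]
  push_cast
  rfl

theorem cnt_comp (c : α → β) (g : Perm α) (a : β) : cnt (c ∘ g) a = cnt c a := by
  unfold cnt
  refine Finset.card_bij (fun x _ => g x) ?_ ?_ ?_
  · intro x hx
    simpa using hx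
  · intro x _ y _ h
    exact g.injective h
  · intro y hy
    refine ⟨g⁻¹ y, ?_, ?_⟩
    · simpa using hy
    · simp

theorem hh_support (c w : α → β) (h : hh c w ≠ 0) (a : β) : cnt w a = cnt c a := by
  unfold hh at h
  obtain ⟨g, _, hg⟩ := Finset.exists_ne_zero_of_sum_ne_zero h
  have h1 : c ∘ (g⁻¹ : Perm α) = w := by
    by_contra hne
    rw [if_neg hne] at hg
    exact hg rfl
  rw [← h1, cnt_comp]

end Core

section Criterion

variable {n : ℕ} {β : Type} [Fintype β] [DecidableEq β]

theorem pairs_const (x : ℝ) :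
    ∑ i : Fin n, ∑ j : Fin n, (if i ≠ j then x else 0) = ((n : ℝ) * n - n) * x := by
  have h1 : ∀ i j : Fin n, (if i ≠ j then x else 0) = x - if i = j then x else 0 := by
    intro i j
    by_cases h : i = j <;> simp [h]
  simp only [h1, Finset.sum_sub_distrib, Finset.sum_ite_eq, Finset.mem_univ, if_true,
    Finset.sum_const, Finset.card_univ, Fintype.card_fin, nsmul_eq_mul]
  ring

theorem exists_equal_letters (c : Fin n → β) (h : 0 < CC (cnt c)) :
    ∃ x y : Fin n, x ≠ y ∧ c x = c y := by
  by_contra hcon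
  push Not at hcon
  have h1 : ∀ a : β, cnt c a ≤ 1 := by
    intro a
    unfold cnt
    rw [Finset.card_le_one]
    intro x hx y hy
    by_contra hne
    simp only [Finset.mem_filter, Finset.mem_univ, true_and] at hx hy
    exact hcon x y hne (hx.trans hy.symm)
  have h2 : CC (cnt c) ≤ 0 := by
    unfold CC
    have h3 : ∑ a : β, ((cnt c a : ℝ) * cnt c a - cnt c a) = 0 := by
      refine Finset.sum_eq_zero fun a _ => ?_
      have := h1 a
      interval_cases h4 : cnt c a <;> simp
    rw [h3, zero_sub, neg_nonpos]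
    refine Finset.sum_nonneg fun a _ => Finset.sum_nonneg fun b _ => ?_
    by_cases hab : a ≠ b
    · rw [if_pos hab]; positivity
    · rw [if_neg hab]
  linarith

theorem star_crit (c : Fin n → β) (hpos : 0 < CC (cnt c)) (hT : Tiles (TStar n)) :
    n * (n - 1) ∣ ∏ a : β, (cnt c a).factorial := by
  classical
  obtain ⟨Y, hY⟩ := hT
  obtain ⟨x, y, hxy, hc⟩ := exists_equal_letters c hpos
  -- the even elements of `Y`
  let f : (Fin n → β) → ℝ := fun w => ∑ g : Perm (Fin n),
    if g ∈ Y ∧ Perm.sign g = 1 ∧ c ∘ (g⁻¹ : Perm (Fin n)) = w then 1 else 0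
  have hf : ∀ w, f w = ∑ g : Perm (Fin n),
    if g ∈ Y ∧ Perm.sign g = 1 ∧ c ∘ (g⁻¹ : Perm (Fin n)) = w then 1 else 0 := fun w => rfl
  -- odd permutations
  have hodd : ∀ w, 2 * ∑ g : Perm (Fin n),
      (if Perm.sign g = -1 ∧ c ∘ (g⁻¹ : Perm (Fin n)) = w then (1 : ℝ) else 0) = hh c w := by
    intro w
    have h1 : ∑ g : Perm (Fin n),
        (if Perm.sign g = 1 ∧ c ∘ (g⁻¹ : Perm (Fin n)) = w then (1 : ℝ) else 0) =
        ∑ g : Perm (Fin n),
        (if Perm.sign g = -1 ∧ c ∘ (g⁻¹ : Perm (Fin n)) = w then (1 : ℝ) else 0) := by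
      rw [← Equiv.sum_comp (Equiv.mulRight (Equiv.swap x y)) (fun g : Perm (Fin n) =>
        if Perm.sign g = 1 ∧ c ∘ (g⁻¹ : Perm (Fin n)) = w then (1 : ℝ) else 0)]
      refine Finset.sum_congr rfl fun g _ => ?_
      simp only [Equiv.coe_mulRight]
      have h2 : c ∘ ((g * Equiv.swap x y)⁻¹ : Perm (Fin n)) = c ∘ (g⁻¹ : Perm (Fin n)) := by
        funext k
        simp only [mul_inv_rev, Equiv.swap_inv, Function.comp_apply, Perm.coe_mul]
        by_cases h3 : g⁻¹ k = x
        · rw [h3, Equiv.swap_apply_left, hc]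
        · by_cases h4 : g⁻¹ k = y
          · rw [h4, Equiv.swap_apply_right, hc]
          · rw [Equiv.swap_apply_of_ne_of_ne h3 h4]
      have h5 : Perm.sign (g * Equiv.swap x y) = 1 ↔ Perm.sign g = -1 := by
        rw [Perm.sign_mul, Perm.sign_swap hxy]
        rcases Int.units_eq_one_or (Perm.sign g) with h | h <;> rw [h] <;> decide
      exact if_congr (and_congr h5 (by rw [h2])) rfl rfl
    have h6 : hh c w = ∑ g : Perm (Fin n),
        (if Perm.sign g = 1 ∧ c ∘ (g⁻¹ : Perm (Fin n)) = w then (1 : ℝ) else 0) +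
        ∑ g : Perm (Fin n),
        (if Perm.sign g = -1 ∧ c ∘ (g⁻¹ : Perm (Fin n)) = w then (1 : ℝ) else 0) := by
      unfold hh
      rw [← Finset.sum_add_distrib]
      refine Finset.sum_congr rfl fun g _ => ?_
      rcases Int.units_eq_one_or (Perm.sign g) with h | h
      · rw [h]
        have : ¬ ((1 : ℤˣ) = -1) := by decide
        simp [this]
      · rw [h]
        have : ¬ ((-1 : ℤˣ) = 1) := by decide
        simp [this]
    rw [h6, h1, two_mul]
  -- the equation
  have heq : ∀ w, ∑ i : Fin n, ∑ j : Fin n, (if i ≠ j then f (w ∘ Equiv.swap i j) else 0) =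
      hh c w := by
    intro w
    rw [swap_sum (fun t => f (w ∘ t)), ← hodd w]
    congr 1
    rw [tiling_sum (TStar n) Y hY (fun g : Perm (Fin n) =>
      if Perm.sign g = -1 ∧ c ∘ (g⁻¹ : Perm (Fin n)) = w then (1 : ℝ) else 0)]
    refine Finset.sum_congr rfl fun t _ => ?_
    by_cases ht : t.IsSwap
    · rw [if_pos ht, hf]
      refine Finset.sum_congr rfl fun g _ => ?_
      have h1 : Perm.sign (t * g) = -1 ↔ Perm.sign g = 1 := by
        rw [Perm.sign_mul, Perm.IsSwap.sign_eq ht]
        rcases Int.units_eq_one_or (Perm.sign g) with h | h <;> rw [h] <;> decide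
      have h2 : t ∈ TStar n := ht
      by_cases h3 : g ∈ Y
      · rw [if_pos (c := t ∈ TStar n ∧ g ∈ Y) ⟨h2, h3⟩]
        refine if_congr ?_ rfl rfl
        rw [h1, comp_iff]
        exact ⟨fun h => h.2, fun h => ⟨h3, h⟩⟩
      · rw [if_neg (fun h => h3 h.1), if_neg (fun h => h3 h.2)]
    · rw [if_neg ht]
      symm
      refine Finset.sum_eq_zero fun g _ => ?_
      rw [if_neg (fun h => ht h.1)]
  -- the difference
  have key := core (fun w => ((n : ℝ) * n - n) * f w - hh c w) (cnt c) (by
    intro w hw a
    by_cases h1 : hh c w = 0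
    · by_cases h2 : f w = 0
      · exact absurd (by rw [h1, h2]; ring) hw
      · rw [hf] at h2
        obtain ⟨g, _, hg⟩ := Finset.exists_ne_zero_of_sum_ne_zero h2
        have h3 : g ∈ Y ∧ Perm.sign g = 1 ∧ c ∘ (g⁻¹ : Perm (Fin n)) = w := by
          by_contra hne
          rw [if_neg hne] at hg
          exact hg rfl
        rw [← h3.2.2, cnt_comp]
    · exact hh_support c w h1 a) 0 (by
    intro w
    have h1 : ∀ i j : Fin n, (if i ≠ j then
        ((n : ℝ) * n - n) * f (w ∘ Equiv.swap i j) - hh c (w ∘ Equiv.swap i j) else 0) =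
        ((n : ℝ) * n - n) * (if i ≠ j then f (w ∘ Equiv.swap i j) else 0) -
          (if i ≠ j then hh c w else 0) := by
      intro i j
      by_cases hij : i ≠ j
      · rw [if_pos hij, if_pos hij, if_pos hij, hh_comp]
      · rw [if_neg hij, if_neg hij, if_neg hij]; ring
    simp only [h1, Finset.sum_sub_distrib, ← Finset.mul_sum]
    rw [heq w, pairs_const]
    ring) (by rw [zero_add]; exact hpos) c
  rw [hh_self] at key
  have hcard : f c = (((Finset.univ.filter fun g : Perm (Fin n) =>
      g ∈ Y ∧ Perm.sign g = 1 ∧ c ∘ (g⁻¹ : Perm (Fin n)) = c).card : ℕ) : ℝ) := by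
    rw [hf, Finset.sum_boole]
  rw [hcard] at key
  refine ⟨(Finset.univ.filter fun g : Perm (Fin n) =>
      g ∈ Y ∧ Perm.sign g = 1 ∧ c ∘ (g⁻¹ : Perm (Fin n)) = c).card, ?_⟩
  have h1 : ((n * (n - 1) : ℕ) : ℝ) = (n : ℝ) * n - n := by
    rcases Nat.eq_zero_or_pos n with h | h
    · rw [h]; simp
    · rw [Nat.cast_mul, Nat.cast_sub h]; push_cast; ring
  have h2 : ((∏ a : β, (cnt c a).factorial : ℕ) : ℝ) = ((n * (n - 1) *
      (Finset.univ.filter fun g : Perm (Fin n) =>
      g ∈ Y ∧ Perm.sign g = 1 ∧ c ∘ (g⁻¹ : Perm (Fin n)) = c).card : ℕ) : ℝ) := by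
    rw [Nat.cast_mul, h1]
    push_cast
    linarith
  exact_mod_cast h2

theorem one_crit (c : Fin n → β) (hpos : 0 < 2 + CC (cnt c)) (hT : Tiles (TOne n)) :
    n * (n - 1) / 2 + 1 ∣ ∏ a : β, (cnt c a).factorial := by
  classical
  obtain ⟨Y, hY⟩ := hT
  let f : (Fin n → β) → ℝ := fun w => ∑ g : Perm (Fin n),
    if g ∈ Y ∧ c ∘ (g⁻¹ : Perm (Fin n)) = w then 1 else 0
  have hf : ∀ w, f w = ∑ g : Perm (Fin n),
    if g ∈ Y ∧ c ∘ (g⁻¹ : Perm (Fin n)) = w then 1 else 0 := fun w => rfl
  have hns : ¬ (1 : Perm (Fin n)).IsSwap := by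
    rintro ⟨x, y, hxy, h⟩
    have := Equiv.swap_apply_left x y
    rw [← h] at this
    exact hxy (by simpa using this)
  have heq : ∀ w, 2 * f w + ∑ i : Fin n, ∑ j : Fin n,
      (if i ≠ j then f (w ∘ Equiv.swap i j) else 0) = 2 * hh c w := by
    intro w
    rw [swap_sum (fun t => f (w ∘ t)), ← mul_add]
    congr 1
    unfold hh
    rw [tiling_sum (TOne n) Y hY (fun g : Perm (Fin n) =>
      if c ∘ (g⁻¹ : Perm (Fin n)) = w then (1 : ℝ) else 0)]
    have h1 : ∀ t : Perm (Fin n), ∑ g : Perm (Fin n), (if t ∈ TOne n ∧ g ∈ Y then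
        (if c ∘ ((t * g)⁻¹ : Perm (Fin n)) = w then (1 : ℝ) else 0) else 0) =
        (if t = 1 then f w else 0) + (if t.IsSwap then f (w ∘ t) else 0) := by
      intro t
      have h2 : ∀ g : Perm (Fin n), (if t ∈ TOne n ∧ g ∈ Y then
        (if c ∘ ((t * g)⁻¹ : Perm (Fin n)) = w then (1 : ℝ) else 0) else 0) =
        if t ∈ TOne n then (if g ∈ Y ∧ c ∘ (g⁻¹ : Perm (Fin n)) = w ∘ t then (1 : ℝ) else 0)
          else 0 := by
        intro g
        by_cases h3 : t ∈ TOne n
        · by_cases h4 : g ∈ Y
          · rw [if_pos ⟨h3, h4⟩, if_pos h3]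
            refine if_congr ?_ rfl rfl
            rw [comp_iff]
            exact ⟨fun h => ⟨h4, h⟩, fun h => h.2⟩
          · rw [if_neg (fun h => h4 h.2), if_pos h3, if_neg (fun h => h4 h.1)]
        · rw [if_neg (fun h => h3 h.1), if_neg h3]
      simp only [h2]
      by_cases ht1 : t = 1
      · subst ht1
        have h3 : (1 : Perm (Fin n)) ∈ TOne n := Or.inl rfl
        simp only [h3, if_true, hns, if_false, add_zero]
        rw [hf]
        rfl
      · by_cases ht : t.IsSwap
        · have h3 : t ∈ TOne n := Or.inr ht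
          simp only [h3, if_true, ht1, if_false, ht, zero_add]
          rw [hf]
        · have h3 : t ∉ TOne n := fun h => h.elim ht1 ht
          simp [h3, ht1, ht]
    simp only [h1, Finset.sum_add_distrib, Finset.sum_ite_eq', Finset.mem_univ, if_true]
  have key := core (fun w => ((n : ℝ) * n - n + 2) * f w - 2 * hh c w) (cnt c) (by
    intro w hw a
    by_cases h1 : hh c w = 0
    · by_cases h2 : f w = 0
      · exact absurd (by rw [h1, h2]; ring) hw
      · rw [hf] at h2
        obtain ⟨g, _, hg⟩ := Finset.exists_ne_zero_of_sum_ne_zero h2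
        have h3 : g ∈ Y ∧ c ∘ (g⁻¹ : Perm (Fin n)) = w := by
          by_contra hne
          rw [if_neg hne] at hg
          exact hg rfl
        rw [← h3.2, cnt_comp]
    · exact hh_support c w h1 a) 2 (by
    intro w
    have h1 : ∀ i j : Fin n, (if i ≠ j then
        ((n : ℝ) * n - n + 2) * f (w ∘ Equiv.swap i j) - 2 * hh c (w ∘ Equiv.swap i j) else 0) =
        ((n : ℝ) * n - n + 2) * (if i ≠ j then f (w ∘ Equiv.swap i j) else 0) -
          (if i ≠ j then 2 * hh c w else 0) := by
      intro i j
      by_cases hij : i ≠ j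
      · rw [if_pos hij, if_pos hij, if_pos hij, hh_comp]
      · rw [if_neg hij, if_neg hij, if_neg hij]; ring
    simp only [h1, Finset.sum_sub_distrib, ← Finset.mul_sum]
    rw [pairs_const]
    linear_combination ((n : ℝ) * n - n + 2) * heq w) hpos c
  rw [hh_self] at key
  have hcard : f c = (((Finset.univ.filter fun g : Perm (Fin n) =>
      g ∈ Y ∧ c ∘ (g⁻¹ : Perm (Fin n)) = c).card : ℕ) : ℝ) := by
    rw [hf, Finset.sum_boole]
  rw [hcard] at key
  refine ⟨(Finset.univ.filter fun g : Perm (Fin n) =>
      g ∈ Y ∧ c ∘ (g⁻¹ : Perm (Fin n)) = c).card, ?_⟩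
  have h0 : 2 * (n * (n - 1) / 2) = n * (n - 1) := Nat.mul_div_cancel' (by
    rcases Nat.even_or_odd n with h | h
    · exact dvd_mul_of_dvd_left h.two_dvd _
    · rcases Nat.eq_zero_or_pos n with h' | h'
      · rw [h']; simp
      · exact dvd_mul_of_dvd_right (Nat.Odd.sub_odd h odd_one).two_dvd _)
  have h1 : ((n * (n - 1) : ℕ) : ℝ) = (n : ℝ) * n - n := by
    rcases Nat.eq_zero_or_pos n with h | h
    · rw [h]; simp
    · rw [Nat.cast_mul, Nat.cast_sub h]; push_cast; ring
  have h1' : (2 : ℝ) * ((n * (n - 1) / 2 : ℕ) : ℝ) = (n : ℝ) * n - n := by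
    rw [← h1]
    exact_mod_cast h0
  have h2 : ((∏ a : β, (cnt c a).factorial : ℕ) : ℝ) = (((n * (n - 1) / 2 + 1) *
      (Finset.univ.filter fun g : Perm (Fin n) =>
      g ∈ Y ∧ c ∘ (g⁻¹ : Perm (Fin n)) = c).card : ℕ) : ℝ) := by
    rw [Nat.cast_mul, Nat.cast_add]
    push_cast
    push_cast at key
    nlinarith
  exact_mod_cast h2

end Criterion

section Composition

theorem cast_mul_pred (x : ℕ) : ((x * (x - 1) : ℕ) : ℤ) = (x : ℤ) * x - x := by
  rcases Nat.eq_zero_or_pos x with h | h
  · rw [h]; simp
  · rw [Nat.cast_mul, Nat.cast_sub h]; push_cast; ring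

theorem CC_nat {β : Type} [Fintype β] [DecidableEq β] (μ : β → ℕ) :
    CC μ = ((∑ a, μ a * (μ a - 1) : ℕ) : ℝ) -
      ((∑ a, ∑ b, (if a ≠ b then min (μ a) (μ b) else 0) : ℕ) : ℝ) := by
  unfold CC
  congr 1
  · rw [Nat.cast_sum]
    refine Finset.sum_congr rfl fun a _ => ?_
    have := cast_mul_pred (μ a)
    have h2 : (((μ a * (μ a - 1) : ℕ) : ℤ) : ℝ) = (((μ a : ℤ) * μ a - μ a : ℤ) : ℝ) := by
      rw [this]
    push_cast at h2
    push_cast
    linarith
  · rw [Nat.cast_sum]
    refine Finset.sum_congr rfl fun a _ => ?_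
    rw [Nat.cast_sum]
    refine Finset.sum_congr rfl fun b _ => ?_
    by_cases h : a ≠ b
    · rw [if_pos h, if_pos h, Nat.cast_min]
    · rw [if_neg h, if_neg h, Nat.cast_zero]

/-- the colouring whose classes have the sizes `μ a` -/
def col {m : ℕ} (μ : Fin m → ℕ) : Fin (∑ a, μ a) → Fin m := fun x => (finSigmaFinEquiv.symm x).1

theorem cnt_col {m : ℕ} (μ : Fin m → ℕ) (a : Fin m) : cnt (col μ) a = μ a := by
  unfold cnt
  have h : (Finset.univ : Finset (Fin (μ a))).card =
      (Finset.univ.filter fun i => col μ i = a).card := by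
    refine Finset.card_bij (fun x _ => finSigmaFinEquiv ⟨a, x⟩) ?_ ?_ ?_
    · intro x _
      simp [col]
    · intro x _ y _ h
      have h2 := finSigmaFinEquiv.injective h
      simpa using h2
    · intro y hy
      obtain ⟨⟨b, z⟩, rfl⟩ := finSigmaFinEquiv.surjective y
      simp only [Finset.mem_filter, Finset.mem_univ, true_and, col, Equiv.symm_apply_apply] at hy
      subst hy
      exact ⟨z, Finset.mem_univ _, rfl⟩
  rw [← h, Finset.card_univ, Fintype.card_fin]

theorem crit_star (m : ℕ) (μ : Fin m → ℕ)
    (h : (∑ a, ∑ b, if a ≠ b then min (μ a) (μ b) else 0) < ∑ a, μ a * (μ a - 1))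
    (hT : Tiles (TStar (∑ a, μ a))) :
    (∑ a, μ a) * ((∑ a, μ a) - 1) ∣ ∏ a, (μ a).factorial := by
  have h1 : cnt (col μ) = μ := funext (cnt_col μ)
  have h2 := star_crit (col μ) (by
    rw [h1, CC_nat, sub_pos]
    exact_mod_cast h) hT
  rwa [h1] at h2

theorem crit_one (m : ℕ) (μ : Fin m → ℕ)
    (h : (∑ a, ∑ b, if a ≠ b then min (μ a) (μ b) else 0) < (∑ a, μ a * (μ a - 1)) + 2)
    (hT : Tiles (TOne (∑ a, μ a))) :
    (∑ a, μ a) * ((∑ a, μ a) - 1) / 2 + 1 ∣ ∏ a, (μ a).factorial := by
  have h1 : cnt (col μ) = μ := funext (cnt_col μ)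
  have h2 := one_crit (col μ) (by
    rw [h1, CC_nat]
    have : ((∑ a, ∑ b, (if a ≠ b then min (μ a) (μ b) else 0) : ℕ) : ℝ) <
        (((∑ a, μ a * (μ a - 1)) + 2 : ℕ) : ℝ) := by exact_mod_cast h
    rw [Nat.cast_add, Nat.cast_ofNat] at this
    linarith) hT
  rwa [h1] at h2

theorem mu_star {n m : ℕ} (μ : Fin m → ℕ) (hn : ∑ a, μ a = n)
    (h : (∑ a, ∑ b, if a ≠ b then min (μ a) (μ b) else 0) < ∑ a, μ a * (μ a - 1))
    (hd : ¬ n * (n - 1) ∣ ∏ a, (μ a).factorial) : ¬ Tiles (TStar n) := by
  subst hn
  exact fun hT => hd (crit_star m μ h hT)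

theorem mu_one {n m : ℕ} (μ : Fin m → ℕ) (hn : ∑ a, μ a = n)
    (h : (∑ a, ∑ b, if a ≠ b then min (μ a) (μ b) else 0) < (∑ a, μ a * (μ a - 1)) + 2)
    (hd : ¬ n * (n - 1) / 2 + 1 ∣ ∏ a, (μ a).factorial) : ¬ Tiles (TOne n) := by
  subst hn
  exact fun hT => hd (crit_one m μ h hT)

/-- `a` classes of size `s` and one of size `b` -/
def blk (s a b : ℕ) : Fin (a + 1) → ℕ := fun i => if i.val < a then s else b

theorem sum_ne (a s : ℕ) (i : Fin a) : (∑ j : Fin a, if i ≠ j then s else 0) + s = a * s := by
  have h1 : ∀ j : Fin a, s = (if i ≠ j then s else 0) + (if i = j then s else 0) := by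
    intro j
    by_cases h : i = j <;> simp [h]
  have h2 : ∑ _j : Fin a, s = a * s := by simp
  rw [← h2]
  conv_rhs => rw [Finset.sum_congr rfl fun j _ => h1 j]
  rw [Finset.sum_add_distrib, Finset.sum_ite_eq, if_pos (Finset.mem_univ i)]

theorem blk_sum (s a b : ℕ) : ∑ i, blk s a b i = a * s + b := by
  rw [Fin.sum_univ_castSucc]
  simp [blk]

theorem blk_sq (s a b : ℕ) :
    ∑ i, blk s a b i * (blk s a b i - 1) = a * (s * (s - 1)) + b * (b - 1) := by
  rw [Fin.sum_univ_castSucc]
  simp [blk]

theorem blk_min (s a b : ℕ) (hb : b ≤ s) :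
    (∑ x, ∑ y, if x ≠ y then min (blk s a b x) (blk s a b y) else 0) + a * s =
      a * (a * s) + 2 * (a * b) := by
  have h1 : ∀ i : Fin a, (∑ y, if Fin.castSucc i ≠ y then
      min (blk s a b (Fin.castSucc i)) (blk s a b y) else 0) + s = a * s + b := by
    intro i
    rw [Fin.sum_univ_castSucc]
    have h2 : ∀ j : Fin a, (if Fin.castSucc i ≠ Fin.castSucc j then
        min (blk s a b (Fin.castSucc i)) (blk s a b (Fin.castSucc j)) else 0) =
        if i ≠ j then s else 0 := by
      intro j
      by_cases h : i = j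
      · simp [h]
      · simp [h, blk]
    have h3 : Fin.castSucc i ≠ Fin.last a := Fin.castSucc_ne_last i
    rw [Finset.sum_congr rfl fun j _ => h2 j, if_pos h3]
    have h4 := sum_ne a s i
    have h5 : min (blk s a b (Fin.castSucc i)) (blk s a b (Fin.last a)) = b := by
      simp [blk, hb]
    rw [h5]
    omega
  have h6 : (∑ y, if Fin.last a ≠ y then min (blk s a b (Fin.last a)) (blk s a b y) else 0) =
      a * b := by
    rw [Fin.sum_univ_castSucc]
    have h2 : ∀ j : Fin a, (if Fin.last a ≠ Fin.castSucc j then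
        min (blk s a b (Fin.last a)) (blk s a b (Fin.castSucc j)) else 0) = b := by
      intro j
      rw [if_pos (Fin.castSucc_ne_last j).symm]
      simp [blk, hb]
    rw [Finset.sum_congr rfl fun j _ => h2 j]
    simp
  rw [Fin.sum_univ_castSucc, h6]
  have h7 : (∑ i : Fin a, ∑ y, if Fin.castSucc i ≠ y then
      min (blk s a b (Fin.castSucc i)) (blk s a b y) else 0) + a * s = a * (a * s + b) := by
    have h8 : ∑ _i : Fin a, s = a * s := by simp
    rw [← h8, ← Finset.sum_add_distrib, Finset.sum_congr rfl fun i _ => h1 i]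
    simp
  nlinarith

theorem arith_star (s a b : ℕ) (ha : 1 ≤ a) (hb : b < s) (h : a * s + b + 2 ≤ s ^ 2) :
    (a * (a * s) + 2 * (a * b) : ℤ) < a * (s * s - s) + (b * b - b) + a * s := by
  have hb' : (b : ℤ) + 1 ≤ s := by exact_mod_cast hb
  have ha' : (1 : ℤ) ≤ a := by exact_mod_cast ha
  have h' : (a * s + b + 2 : ℤ) ≤ s ^ 2 := by exact_mod_cast h
  have hb0 : (0 : ℤ) ≤ b := Int.natCast_nonneg b
  have has : (a : ℤ) + 1 ≤ s := by
    by_contra hcon
    push Not at hcon
    have : (s : ℤ) ≤ a := by omega
    nlinarith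
  rcases Int.lt_or_le (a + 1 : ℤ) s with h1 | h1
  · -- `a ≤ s - 2`
    have h2 : (0 : ℤ) ≤ ((b : ℤ) - a) * (b - a - 1) := by
      rcases Int.lt_or_le (a : ℤ) b with h3 | h3
      · exact mul_nonneg (by omega) (by omega)
      · exact mul_nonneg_of_nonpos_of_nonpos (by omega) (by omega)
    nlinarith [mul_nonneg (show (0 : ℤ) ≤ a by omega) (show (0 : ℤ) ≤ (s : ℤ) - a - 2 by omega),
      mul_nonneg (mul_nonneg (show (0 : ℤ) ≤ a by omega) (show (0 : ℤ) ≤ (s : ℤ) by omega))
        (show (0 : ℤ) ≤ (s : ℤ) - a - 2 by omega)]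
  · have h2 : (a : ℤ) = s - 1 := by omega
    rw [h2] at h' ⊢
    have h3 : (b : ℤ) + 2 ≤ s := by nlinarith
    nlinarith [mul_nonneg (show (0 : ℤ) ≤ (s : ℤ) - b - 2 by omega)
      (show (0 : ℤ) ≤ (s : ℤ) - b by omega)]

theorem arith_one (s a b : ℕ) (hb : b < s) (h : a * s + b ≤ s ^ 2) :
    (a * (a * s) + 2 * (a * b) : ℤ) < a * (s * s - s) + (b * b - b) + a * s + 2 := by
  have hb' : (b : ℤ) + 1 ≤ s := by exact_mod_cast hb
  have ha' : (0 : ℤ) ≤ a := Int.natCast_nonneg a
  have h' : (a * s + b : ℤ) ≤ s ^ 2 := by exact_mod_cast h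
  have hb0 : (0 : ℤ) ≤ b := Int.natCast_nonneg b
  have has : (a : ℤ) ≤ s := by
    by_contra hcon
    push Not at hcon
    have : (s : ℤ) + 1 ≤ a := by omega
    nlinarith
  rcases Int.lt_or_le (a + 1 : ℤ) s with h1 | h1
  · have h2 : (0 : ℤ) ≤ ((b : ℤ) - a) * (b - a - 1) := by
      rcases Int.lt_or_le (a : ℤ) b with h3 | h3
      · exact mul_nonneg (by omega) (by omega)
      · exact mul_nonneg_of_nonpos_of_nonpos (by omega) (by omega)
    nlinarith [mul_nonneg (show (0 : ℤ) ≤ a by omega) (show (0 : ℤ) ≤ (s : ℤ) - a - 2 by omega),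
      mul_nonneg (mul_nonneg (show (0 : ℤ) ≤ a by omega) (show (0 : ℤ) ≤ (s : ℤ) by omega))
        (show (0 : ℤ) ≤ (s : ℤ) - a - 2 by omega)]
  · rcases Int.lt_or_le (a : ℤ) s with h2 | h2
    · have h3 : (a : ℤ) = s - 1 := by omega
      rw [h3] at h' ⊢
      nlinarith [mul_nonneg (show (0 : ℤ) ≤ (s : ℤ) - b - 1 by omega)
        (show (0 : ℤ) ≤ (s : ℤ) - b by omega)]
    · have h3 : (a : ℤ) = s := by omega
      rw [h3] at h' ⊢
      have h4 : (b : ℤ) = 0 := by nlinarith
      rw [h4]
      nlinarith

theorem not_dvd_blk (p a b : ℕ) (hp : p.Prime) (hb : b < p) :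
    ¬ p ∣ ∏ i, (blk (p - 1) a b i).factorial := by
  intro h
  rw [Prime.dvd_finsetProd_iff hp.prime] at h
  obtain ⟨i, _, hi⟩ := h
  rw [hp.dvd_factorial] at hi
  unfold blk at hi
  have := hp.pos
  split_ifs at hi <;> omega

theorem prime_star (n p : ℕ) (hp : p.Prime) (h2 : 2 ≤ n) (hd : p ∣ n * (n - 1))
    (hle : n + 2 ≤ (p - 1) ^ 2) : ¬ Tiles (TStar n) := by
  have hpn : p ≤ n := by
    rcases (Nat.Prime.dvd_mul hp).1 hd with h | h
    · exact Nat.le_of_dvd (by omega) h
    · exact (Nat.le_of_dvd (by omega) h).trans (by omega)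
  have hs : 0 < p - 1 := by
    rcases Nat.eq_zero_or_pos (p - 1) with h | h
    · rw [h] at hle; omega
    · exact h
  have hn : (n / (p - 1)) * (p - 1) + n % (p - 1) = n := Nat.div_add_mod' n (p - 1)
  have hb : n % (p - 1) < p - 1 := Nat.mod_lt _ hs
  have ha : 1 ≤ n / (p - 1) := (Nat.one_le_div_iff hs).2 (by omega)
  refine mu_star (blk (p - 1) (n / (p - 1)) (n % (p - 1))) ((blk_sum _ _ _).trans hn) ?_ ?_
  · have h3 := blk_min (p - 1) (n / (p - 1)) (n % (p - 1)) hb.le
    have h4 := arith_star (p - 1) (n / (p - 1)) (n % (p - 1)) ha hb (by rw [hn]; exact hle)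
    rw [blk_sq]
    zify at h3 ⊢
    have h5 := cast_mul_pred (p - 1)
    have h6 := cast_mul_pred (n % (p - 1))
    push_cast at h3 h4 h5 h6 ⊢
    rw [h5, h6]
    linarith
  · intro h
    exact not_dvd_blk p _ _ hp (by omega) (hd.trans h)

theorem prime_one (n p : ℕ) (hp : p.Prime) (hd : p ∣ n * (n - 1) / 2 + 1)
    (hle : n ≤ (p - 1) ^ 2) : ¬ Tiles (TOne n) := by
  rcases Nat.lt_or_ge n 2 with hn2 | hn2
  · interval_cases n
    · exfalso
      simp only [Nat.zero_mul, Nat.zero_div, Nat.zero_add, Nat.dvd_one] at hd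
      exact hp.one_lt.ne' hd
    · exfalso
      simp only [Nat.sub_self, Nat.mul_zero, Nat.zero_div, Nat.zero_add, Nat.dvd_one] at hd
      exact hp.one_lt.ne' hd
  have hs : 0 < p - 1 := by
    rcases Nat.eq_zero_or_pos (p - 1) with h | h
    · rw [h] at hle; omega
    · exact h
  have hn : (n / (p - 1)) * (p - 1) + n % (p - 1) = n := Nat.div_add_mod' n (p - 1)
  have hb : n % (p - 1) < p - 1 := Nat.mod_lt _ hs
  refine mu_one (blk (p - 1) (n / (p - 1)) (n % (p - 1))) ((blk_sum _ _ _).trans hn) ?_ ?_
  · have h3 := blk_min (p - 1) (n / (p - 1)) (n % (p - 1)) hb.le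
    have h4 := arith_one (p - 1) (n / (p - 1)) (n % (p - 1)) hb (by rw [hn]; exact hle)
    rw [blk_sq]
    zify at h3 ⊢
    have h5 := cast_mul_pred (p - 1)
    have h6 := cast_mul_pred (n % (p - 1))
    push_cast at h3 h4 h5 h6 ⊢
    rw [h5, h6]
    linarith
  · intro h
    exact not_dvd_blk p _ _ hp (by omega) (hd.trans h)

theorem cons_min {k : ℕ} (t : ℕ) (ν : Fin k → ℕ) (ht : ∀ i, ν i ≤ t) :
    (∑ x, ∑ y, if x ≠ y then min ((Fin.cons t ν : Fin (k + 1) → ℕ) x)
      ((Fin.cons t ν : Fin (k + 1) → ℕ) y) else 0) =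
      2 * ∑ i, ν i + ∑ x, ∑ y, if x ≠ y then min (ν x) (ν y) else 0 := by
  rw [Fin.sum_univ_succ, Fin.sum_univ_succ]
  have h1 : ∀ i : Fin k, (if (0 : Fin (k + 1)) ≠ i.succ then
      min ((Fin.cons t ν : Fin (k + 1) → ℕ) 0) ((Fin.cons t ν : Fin (k + 1) → ℕ) i.succ) else 0) =
      ν i := by
    intro i
    rw [if_pos (Fin.succ_ne_zero i).symm, Fin.cons_zero, Fin.cons_succ, min_eq_right (ht i)]
  have h2 : ∀ i : Fin k, (∑ y, if i.succ ≠ y then
      min ((Fin.cons t ν : Fin (k + 1) → ℕ) i.succ) ((Fin.cons t ν : Fin (k + 1) → ℕ) y) else 0) =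
      ν i + ∑ y, if i ≠ y then min (ν i) (ν y) else 0 := by
    intro i
    rw [Fin.sum_univ_succ, if_pos (Fin.succ_ne_zero i), Fin.cons_zero, Fin.cons_succ,
      min_eq_left (ht i)]
    congr 1
    refine Finset.sum_congr rfl fun j _ => ?_
    by_cases h : i = j
    · simp [h]
    · have h' : i.succ ≠ j.succ := fun h'' => h (Fin.succ_injective _ h'')
      rw [if_pos h', if_pos h, Fin.cons_succ]
  rw [Finset.sum_congr rfl fun i _ => h1 i, Finset.sum_congr rfl fun i _ => h2 i,
    Finset.sum_add_distrib]
  simp only [ne_eq, not_true_eq_false, if_false]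
  ring

theorem blk_le (s a b t : ℕ) (h1 : s ≤ t) (h2 : b ≤ t) (i : Fin (a + 1)) : blk s a b i ≤ t := by
  unfold blk
  split_ifs
  · exact h1
  · exact h2

theorem arith_two (s a b : ℕ) (hs : 3 ≤ s) (hb : b < s) (h : a * s + b ≤ s ^ 2 + s) :
    (2 * (a * s + b) + a * (a * s) + 2 * (a * b) : ℤ) <
      (4 * (s * s) + 2 * s) + a * (s * s - s) + (b * b - b) + a * s := by
  have hb' : (b : ℤ) + 1 ≤ s := by exact_mod_cast hb
  have hs' : (3 : ℤ) ≤ s := by exact_mod_cast hs
  have ha' : (0 : ℤ) ≤ a := Int.natCast_nonneg a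
  have h' : (a * s + b : ℤ) ≤ s ^ 2 + s := by exact_mod_cast h
  have hb0 : (0 : ℤ) ≤ b := Int.natCast_nonneg b
  have has : (a : ℤ) ≤ s + 1 := by
    by_contra hcon
    push Not at hcon
    have : (s : ℤ) + 2 ≤ a := by omega
    nlinarith
  rcases Int.lt_or_le (s : ℤ) a with h1 | h1
  · have h2 : (a : ℤ) = s + 1 := by omega
    rw [h2] at h' ⊢
    have h3 : (b : ℤ) = 0 := by nlinarith
    rw [h3]
    nlinarith
  · have h2 : (0 : ℤ) ≤ ((b : ℤ) - a - 1) * (b - a - 2) := by
      rcases Int.lt_or_le (a + 1 : ℤ) b with h3 | h3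
      · exact mul_nonneg (by omega) (by omega)
      · exact mul_nonneg_of_nonpos_of_nonpos (by omega) (by omega)
    have h3 : (0 : ℤ) ≤ a * s * (s - a) := mul_nonneg (mul_nonneg ha' (by omega)) (by omega)
    have h4 : (0 : ℤ) ≤ (s - a) * s := mul_nonneg (by omega) (by omega)
    have h5 : (0 : ℤ) ≤ (s - a) * (s + a + 3) := mul_nonneg (by omega) (by omega)
    nlinarith

theorem not_sq_dvd (p a b : ℕ) (hp : p.Prime) (hp2 : 2 < p) (hb : b < p) :
    ¬ p ^ 2 ∣ ∏ i, ((Fin.cons (2 * (p - 1) + 1) (blk (p - 1) a b) : Fin (a + 1 + 1) → ℕ)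
      i).factorial := by
  intro h
  rw [Fin.prod_univ_succ] at h
  simp only [Fin.cons_zero, Fin.cons_succ] at h
  have h1 : Nat.Coprime (p ^ 2) (∏ i, (blk (p - 1) a b i).factorial) :=
    Nat.Coprime.pow_left 2 ((Nat.Prime.coprime_iff_not_dvd hp).2 (not_dvd_blk p a b hp hb))
  have h2 := h1.dvd_of_dvd_mul_right h
  have h3 : 2 * (p - 1) + 1 = 2 * p - 1 := by omega
  rw [h3] at h2
  have h4 : Nat.log p (2 * p - 1) < 2 := by
    apply Nat.log_lt_of_lt_pow (by omega)
    nlinarith [Nat.sub_le (2 * p) 1]
  rw [hp.pow_dvd_factorial_iff h4] at h2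
  have h5 : ∑ i ∈ Finset.Ico 1 2, (2 * p - 1) / p ^ i = (2 * p - 1) / p := by
    simp
  rw [h5] at h2
  have h6 : (2 * p - 1) / p < 2 := (Nat.div_lt_iff_lt_mul (by omega)).2 (by omega)
  omega

theorem cons_data (s a b : ℕ) (hs : 3 ≤ s) (hb : b < s) (h : a * s + b ≤ s ^ 2 + s) :
    (∑ x, ∑ y, if x ≠ y then min ((Fin.cons (2 * s + 1) (blk s a b) : Fin (a + 1 + 1) → ℕ) x)
      ((Fin.cons (2 * s + 1) (blk s a b) : Fin (a + 1 + 1) → ℕ) y) else 0) <
      ∑ x, (Fin.cons (2 * s + 1) (blk s a b) : Fin (a + 1 + 1) → ℕ) x *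
        ((Fin.cons (2 * s + 1) (blk s a b) : Fin (a + 1 + 1) → ℕ) x - 1) := by
  have e : ∑ x, (Fin.cons (2 * s + 1) (blk s a b) : Fin (a + 1 + 1) → ℕ) x *
        ((Fin.cons (2 * s + 1) (blk s a b) : Fin (a + 1 + 1) → ℕ) x - 1) =
      (2 * s + 1) * (2 * s + 1 - 1) + ∑ i, blk s a b i * (blk s a b i - 1) := by
    rw [Fin.sum_univ_succ]
    simp only [Fin.cons_zero, Fin.cons_succ]
  rw [cons_min _ _ (blk_le s a b _ (by omega) (by omega)), e, blk_sum, blk_sq]
  have h3 := blk_min s a b hb.le
  have h4 := arith_two s a b hs hb h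
  have h7 : (2 * s + 1) * (2 * s + 1 - 1) = 4 * (s * s) + 2 * s := by
    rw [Nat.add_sub_cancel]; ring
  rw [h7]
  zify at h3 ⊢
  have h5 := cast_mul_pred s
  have h6 := cast_mul_pred b
  push_cast at h3 h4 h5 h6 ⊢
  rw [h5, h6]
  linarith

theorem cons_sum (s a b : ℕ) :
    ∑ x, (Fin.cons (2 * s + 1) (blk s a b) : Fin (a + 1 + 1) → ℕ) x = 2 * s + 1 + (a * s + b) := by
  rw [Fin.sum_univ_succ]
  simp only [Fin.cons_zero, Fin.cons_succ]
  rw [blk_sum]

theorem sq_star (n p : ℕ) (hp : p.Prime) (hp5 : 5 ≤ p) (hn : 2 * p ≤ n) (hd : p ^ 2 ∣ n * (n - 1))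
    (hle : n < p ^ 2 + p) : ¬ Tiles (TStar n) := by
  obtain ⟨s, rfl⟩ : ∃ s, p = s + 1 := ⟨p - 1, by omega⟩
  have hs : 0 < s := by omega
  have hn1 : ((n - (2 * s + 1)) / s) * s + (n - (2 * s + 1)) % s = n - (2 * s + 1) :=
    Nat.div_add_mod' _ s
  have hb : (n - (2 * s + 1)) % s < s := Nat.mod_lt _ hs
  have hle2 : n - (2 * s + 1) ≤ s ^ 2 + s := by
    have : (s + 1) ^ 2 = s ^ 2 + 2 * s + 1 := by ring
    omega
  refine mu_star (Fin.cons (2 * s + 1) (blk s ((n - (2 * s + 1)) / s) ((n - (2 * s + 1)) % s)) :
    Fin (_ + 1 + 1) → ℕ) ?_ ?_ ?_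
  · rw [cons_sum, hn1]; omega
  · exact cons_data s _ _ (by omega) hb (by rw [hn1]; exact hle2)
  · intro h
    exact not_sq_dvd (s + 1) _ _ hp (by omega) (by omega) (hd.trans h)

theorem sq_one (n p : ℕ) (hp : p.Prime) (hp5 : 5 ≤ p) (hn : 2 * p ≤ n)
    (hd : p ^ 2 ∣ n * (n - 1) / 2 + 1) (hle : n < p ^ 2 + p) : ¬ Tiles (TOne n) := by
  obtain ⟨s, rfl⟩ : ∃ s, p = s + 1 := ⟨p - 1, by omega⟩
  have hs : 0 < s := by omega
  have hn1 : ((n - (2 * s + 1)) / s) * s + (n - (2 * s + 1)) % s = n - (2 * s + 1) :=
    Nat.div_add_mod' _ s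
  have hb : (n - (2 * s + 1)) % s < s := Nat.mod_lt _ hs
  have hle2 : n - (2 * s + 1) ≤ s ^ 2 + s := by
    have : (s + 1) ^ 2 = s ^ 2 + 2 * s + 1 := by ring
    omega
  refine mu_one (Fin.cons (2 * s + 1) (blk s ((n - (2 * s + 1)) / s) ((n - (2 * s + 1)) % s)) :
    Fin (_ + 1 + 1) → ℕ) ?_ ?_ ?_
  · rw [cons_sum, hn1]; omega
  · have := cons_data s _ _ (by omega) hb (by rw [hn1]; exact hle2)
    omega
  · intro h
    exact not_sq_dvd (s + 1) _ _ hp (by omega) (by omega) (hd.trans h)

end Composition

theorem sq_one' (n p : ℕ) (hp : p.Prime) (hp5 : 5 ≤ p) (hd : p ^ 2 ∣ n * (n - 1) / 2 + 1)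
    (hle : n < p ^ 2 + p) : ¬ Tiles (TOne n) := by
  rcases Nat.lt_or_ge n (2 * p) with h | h
  · refine prime_one n p hp ((dvd_pow_self p two_ne_zero).trans hd) ?_
    obtain ⟨s, rfl⟩ : ∃ s, p = s + 1 := ⟨p - 1, by omega⟩
    rw [Nat.add_sub_cancel]
    nlinarith
  · exact sq_one n p hp hp5 h hd hle

theorem small_star (n : ℕ) (h1 : 4 ≤ n) (h2 : n ≤ 125) (e1 : n ≠ 16) (e2 : n ≠ 36) (e3 : n ≠ 64)
    (e4 : n ≠ 81) (e5 : n ≠ 99) (e6 : n ≠ 100) : ¬ Tiles (TStar n) := by
  interval_cases n
  · exact mu_star ![3, 1] (by decide +kernel) (by decide +kernel) (by decide +kernel)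
  · exact prime_star 5 5 (by norm_num) (by norm_num) (by norm_num) (by norm_num)
  · exact prime_star 6 5 (by norm_num) (by norm_num) (by norm_num) (by norm_num)
  · exact prime_star 7 7 (by norm_num) (by norm_num) (by norm_num) (by norm_num)
  · exact prime_star 8 7 (by norm_num) (by norm_num) (by norm_num) (by norm_num)
  · exact mu_star ![5, 2, 2] (by decide +kernel) (by decide +kernel) (by decide +kernel)
  · exact prime_star 10 5 (by norm_num) (by norm_num) (by norm_num) (by norm_num)
  · exact prime_star 11 5 (by norm_num) (by norm_num) (by norm_num) (by norm_num)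
  · exact prime_star 12 11 (by norm_num) (by norm_num) (by norm_num) (by norm_num)
  · exact prime_star 13 13 (by norm_num) (by norm_num) (by norm_num) (by norm_num)
  · exact prime_star 14 7 (by norm_num) (by norm_num) (by norm_num) (by norm_num)
  · exact prime_star 15 7 (by norm_num) (by norm_num) (by norm_num) (by norm_num)
  · exact absurd rfl e1
  · exact prime_star 17 17 (by norm_num) (by norm_num) (by norm_num) (by norm_num)
  · exact prime_star 18 17 (by norm_num) (by norm_num) (by norm_num) (by norm_num)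
  · exact prime_star 19 19 (by norm_num) (by norm_num) (by norm_num) (by norm_num)
  · exact prime_star 20 19 (by norm_num) (by norm_num) (by norm_num) (by norm_num)
  · exact prime_star 21 7 (by norm_num) (by norm_num) (by norm_num) (by norm_num)
  · exact prime_star 22 7 (by norm_num) (by norm_num) (by norm_num) (by norm_num)
  · exact prime_star 23 11 (by norm_num) (by norm_num) (by norm_num) (by norm_num)
  · exact prime_star 24 23 (by norm_num) (by norm_num) (by norm_num) (by norm_num)
  · exact mu_star ![9, 4, 4, 4, 4] (by decide +kernel) (by decide +kernel) (by decide +kernel)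
  · exact prime_star 26 13 (by norm_num) (by norm_num) (by norm_num) (by norm_num)
  · exact prime_star 27 13 (by norm_num) (by norm_num) (by norm_num) (by norm_num)
  · exact prime_star 28 7 (by norm_num) (by norm_num) (by norm_num) (by norm_num)
  · exact prime_star 29 7 (by norm_num) (by norm_num) (by norm_num) (by norm_num)
  · exact prime_star 30 29 (by norm_num) (by norm_num) (by norm_num) (by norm_num)
  · exact prime_star 31 31 (by norm_num) (by norm_num) (by norm_num) (by norm_num)
  · exact prime_star 32 31 (by norm_num) (by norm_num) (by norm_num) (by norm_num)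
  · exact prime_star 33 11 (by norm_num) (by norm_num) (by norm_num) (by norm_num)
  · exact prime_star 34 11 (by norm_num) (by norm_num) (by norm_num) (by norm_num)
  · exact prime_star 35 17 (by norm_num) (by norm_num) (by norm_num) (by norm_num)
  · exact absurd rfl e2
  · exact prime_star 37 37 (by norm_num) (by norm_num) (by norm_num) (by norm_num)
  · exact prime_star 38 19 (by norm_num) (by norm_num) (by norm_num) (by norm_num)
  · exact prime_star 39 13 (by norm_num) (by norm_num) (by norm_num) (by norm_num)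
  · exact prime_star 40 13 (by norm_num) (by norm_num) (by norm_num) (by norm_num)
  · exact prime_star 41 41 (by norm_num) (by norm_num) (by norm_num) (by norm_num)
  · exact prime_star 42 41 (by norm_num) (by norm_num) (by norm_num) (by norm_num)
  · exact prime_star 43 43 (by norm_num) (by norm_num) (by norm_num) (by norm_num)
  · exact prime_star 44 11 (by norm_num) (by norm_num) (by norm_num) (by norm_num)
  · exact prime_star 45 11 (by norm_num) (by norm_num) (by norm_num) (by norm_num)
  · exact prime_star 46 23 (by norm_num) (by norm_num) (by norm_num) (by norm_num)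
  · exact prime_star 47 23 (by norm_num) (by norm_num) (by norm_num) (by norm_num)
  · exact prime_star 48 47 (by norm_num) (by norm_num) (by norm_num) (by norm_num)
  · exact mu_star ![13, 6, 6, 6, 6, 6, 6] (by decide +kernel) (by decide +kernel) (by decide +kernel)
  · exact mu_star ![13, 6, 6, 6, 6, 6, 6, 1] (by decide +kernel) (by decide +kernel) (by decide +kernel)
  · exact prime_star 51 17 (by norm_num) (by norm_num) (by norm_num) (by norm_num)
  · exact prime_star 52 13 (by norm_num) (by norm_num) (by norm_num) (by norm_num)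
  · exact prime_star 53 13 (by norm_num) (by norm_num) (by norm_num) (by norm_num)
  · exact prime_star 54 53 (by norm_num) (by norm_num) (by norm_num) (by norm_num)
  · exact prime_star 55 11 (by norm_num) (by norm_num) (by norm_num) (by norm_num)
  · exact prime_star 56 11 (by norm_num) (by norm_num) (by norm_num) (by norm_num)
  · exact prime_star 57 19 (by norm_num) (by norm_num) (by norm_num) (by norm_num)
  · exact prime_star 58 19 (by norm_num) (by norm_num) (by norm_num) (by norm_num)
  · exact prime_star 59 29 (by norm_num) (by norm_num) (by norm_num) (by norm_num)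
  · exact prime_star 60 59 (by norm_num) (by norm_num) (by norm_num) (by norm_num)
  · exact prime_star 61 61 (by norm_num) (by norm_num) (by norm_num) (by norm_num)
  · exact prime_star 62 31 (by norm_num) (by norm_num) (by norm_num) (by norm_num)
  · exact prime_star 63 31 (by norm_num) (by norm_num) (by norm_num) (by norm_num)
  · exact absurd rfl e3
  · exact prime_star 65 13 (by norm_num) (by norm_num) (by norm_num) (by norm_num)
  · exact prime_star 66 11 (by norm_num) (by norm_num) (by norm_num) (by norm_num)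
  · exact prime_star 67 11 (by norm_num) (by norm_num) (by norm_num) (by norm_num)
  · exact prime_star 68 17 (by norm_num) (by norm_num) (by norm_num) (by norm_num)
  · exact prime_star 69 17 (by norm_num) (by norm_num) (by norm_num) (by norm_num)
  · exact prime_star 70 23 (by norm_num) (by norm_num) (by norm_num) (by norm_num)
  · exact prime_star 71 71 (by norm_num) (by norm_num) (by norm_num) (by norm_num)
  · exact prime_star 72 71 (by norm_num) (by norm_num) (by norm_num) (by norm_num)
  · exact prime_star 73 73 (by norm_num) (by norm_num) (by norm_num) (by norm_num)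
  · exact prime_star 74 37 (by norm_num) (by norm_num) (by norm_num) (by norm_num)
  · exact prime_star 75 37 (by norm_num) (by norm_num) (by norm_num) (by norm_num)
  · exact prime_star 76 19 (by norm_num) (by norm_num) (by norm_num) (by norm_num)
  · exact prime_star 77 11 (by norm_num) (by norm_num) (by norm_num) (by norm_num)
  · exact prime_star 78 11 (by norm_num) (by norm_num) (by norm_num) (by norm_num)
  · exact prime_star 79 13 (by norm_num) (by norm_num) (by norm_num) (by norm_num)
  · exact prime_star 80 79 (by norm_num) (by norm_num) (by norm_num) (by norm_num)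
  · exact absurd rfl e4
  · exact prime_star 82 41 (by norm_num) (by norm_num) (by norm_num) (by norm_num)
  · exact prime_star 83 41 (by norm_num) (by norm_num) (by norm_num) (by norm_num)
  · exact prime_star 84 83 (by norm_num) (by norm_num) (by norm_num) (by norm_num)
  · exact prime_star 85 17 (by norm_num) (by norm_num) (by norm_num) (by norm_num)
  · exact prime_star 86 17 (by norm_num) (by norm_num) (by norm_num) (by norm_num)
  · exact prime_star 87 29 (by norm_num) (by norm_num) (by norm_num) (by norm_num)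
  · exact prime_star 88 11 (by norm_num) (by norm_num) (by norm_num) (by norm_num)
  · exact prime_star 89 11 (by norm_num) (by norm_num) (by norm_num) (by norm_num)
  · exact prime_star 90 89 (by norm_num) (by norm_num) (by norm_num) (by norm_num)
  · exact prime_star 91 13 (by norm_num) (by norm_num) (by norm_num) (by norm_num)
  · exact prime_star 92 13 (by norm_num) (by norm_num) (by norm_num) (by norm_num)
  · exact prime_star 93 23 (by norm_num) (by norm_num) (by norm_num) (by norm_num)
  · exact prime_star 94 31 (by norm_num) (by norm_num) (by norm_num) (by norm_num)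
  · exact prime_star 95 19 (by norm_num) (by norm_num) (by norm_num) (by norm_num)
  · exact prime_star 96 19 (by norm_num) (by norm_num) (by norm_num) (by norm_num)
  · exact prime_star 97 97 (by norm_num) (by norm_num) (by norm_num) (by norm_num)
  · exact prime_star 98 97 (by norm_num) (by norm_num) (by norm_num) (by norm_num)
  · exact absurd rfl e5
  · exact absurd rfl e6
  · exact prime_star 101 101 (by norm_num) (by norm_num) (by norm_num) (by norm_num)
  · exact prime_star 102 17 (by norm_num) (by norm_num) (by norm_num) (by norm_num)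
  · exact prime_star 103 17 (by norm_num) (by norm_num) (by norm_num) (by norm_num)
  · exact prime_star 104 13 (by norm_num) (by norm_num) (by norm_num) (by norm_num)
  · exact prime_star 105 13 (by norm_num) (by norm_num) (by norm_num) (by norm_num)
  · exact prime_star 106 53 (by norm_num) (by norm_num) (by norm_num) (by norm_num)
  · exact prime_star 107 53 (by norm_num) (by norm_num) (by norm_num) (by norm_num)
  · exact prime_star 108 107 (by norm_num) (by norm_num) (by norm_num) (by norm_num)
  · exact prime_star 109 109 (by norm_num) (by norm_num) (by norm_num) (by norm_num)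
  · exact prime_star 110 109 (by norm_num) (by norm_num) (by norm_num) (by norm_num)
  · exact prime_star 111 37 (by norm_num) (by norm_num) (by norm_num) (by norm_num)
  · exact prime_star 112 37 (by norm_num) (by norm_num) (by norm_num) (by norm_num)
  · exact prime_star 113 113 (by norm_num) (by norm_num) (by norm_num) (by norm_num)
  · exact prime_star 114 19 (by norm_num) (by norm_num) (by norm_num) (by norm_num)
  · exact prime_star 115 19 (by norm_num) (by norm_num) (by norm_num) (by norm_num)
  · exact prime_star 116 23 (by norm_num) (by norm_num) (by norm_num) (by norm_num)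
  · exact prime_star 117 13 (by norm_num) (by norm_num) (by norm_num) (by norm_num)
  · exact prime_star 118 13 (by norm_num) (by norm_num) (by norm_num) (by norm_num)
  · exact prime_star 119 17 (by norm_num) (by norm_num) (by norm_num) (by norm_num)
  · exact prime_star 120 17 (by norm_num) (by norm_num) (by norm_num) (by norm_num)
  · exact mu_star ![21, 10, 10, 10, 10, 10, 10, 10, 10, 10, 10] (by decide +kernel) (by decide +kernel) (by decide +kernel)
  · exact prime_star 122 61 (by norm_num) (by norm_num) (by norm_num) (by norm_num)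
  · exact prime_star 123 41 (by norm_num) (by norm_num) (by norm_num) (by norm_num)
  · exact prime_star 124 31 (by norm_num) (by norm_num) (by norm_num) (by norm_num)
  · exact prime_star 125 31 (by norm_num) (by norm_num) (by norm_num) (by norm_num)

theorem small_one (n : ℕ) (h1 : 4 ≤ n) (h2 : n ≤ 136) (e1 : n ≠ 91) : ¬ Tiles (TOne n) := by
  interval_cases n
  · exact prime_one 4 7 (by norm_num) (by norm_num) (by norm_num)
  · exact prime_one 5 11 (by norm_num) (by norm_num) (by norm_num)
  · exact mu_one ![5, 1] (by decide +kernel) (by decide +kernel) (by decide +kernel)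
  · exact prime_one 7 11 (by norm_num) (by norm_num) (by norm_num)
  · exact prime_one 8 29 (by norm_num) (by norm_num) (by norm_num)
  · exact prime_one 9 37 (by norm_num) (by norm_num) (by norm_num)
  · exact prime_one 10 23 (by norm_num) (by norm_num) (by norm_num)
  · exact prime_one 11 7 (by norm_num) (by norm_num) (by norm_num)
  · exact prime_one 12 67 (by norm_num) (by norm_num) (by norm_num)
  · exact prime_one 13 79 (by norm_num) (by norm_num) (by norm_num)
  · exact prime_one 14 23 (by norm_num) (by norm_num) (by norm_num)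
  · exact prime_one 15 53 (by norm_num) (by norm_num) (by norm_num)
  · exact prime_one 16 11 (by norm_num) (by norm_num) (by norm_num)
  · exact prime_one 17 137 (by norm_num) (by norm_num) (by norm_num)
  · exact prime_one 18 7 (by norm_num) (by norm_num) (by norm_num)
  · exact prime_one 19 43 (by norm_num) (by norm_num) (by norm_num)
  · exact prime_one 20 191 (by norm_num) (by norm_num) (by norm_num)
  · exact prime_one 21 211 (by norm_num) (by norm_num) (by norm_num)
  · exact prime_one 22 29 (by norm_num) (by norm_num) (by norm_num)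
  · exact prime_one 23 127 (by norm_num) (by norm_num) (by norm_num)
  · exact prime_one 24 277 (by norm_num) (by norm_num) (by norm_num)
  · exact prime_one 25 7 (by norm_num) (by norm_num) (by norm_num)
  · exact prime_one 26 163 (by norm_num) (by norm_num) (by norm_num)
  · exact prime_one 27 11 (by norm_num) (by norm_num) (by norm_num)
  · exact prime_one 28 379 (by norm_num) (by norm_num) (by norm_num)
  · exact prime_one 29 11 (by norm_num) (by norm_num) (by norm_num)
  · exact prime_one 30 109 (by norm_num) (by norm_num) (by norm_num)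
  · exact prime_one 31 233 (by norm_num) (by norm_num) (by norm_num)
  · exact prime_one 32 7 (by norm_num) (by norm_num) (by norm_num)
  · exact prime_one 33 23 (by norm_num) (by norm_num) (by norm_num)
  · exact prime_one 34 281 (by norm_num) (by norm_num) (by norm_num)
  · exact prime_one 35 149 (by norm_num) (by norm_num) (by norm_num)
  · exact prime_one 36 631 (by norm_num) (by norm_num) (by norm_num)
  · exact prime_one 37 23 (by norm_num) (by norm_num) (by norm_num)
  · exact prime_one 38 11 (by norm_num) (by norm_num) (by norm_num)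
  · exact prime_one 39 53 (by norm_num) (by norm_num) (by norm_num)
  · exact prime_one 40 11 (by norm_num) (by norm_num) (by norm_num)
  · exact prime_one 41 821 (by norm_num) (by norm_num) (by norm_num)
  · exact prime_one 42 431 (by norm_num) (by norm_num) (by norm_num)
  · exact prime_one 43 113 (by norm_num) (by norm_num) (by norm_num)
  · exact prime_one 44 947 (by norm_num) (by norm_num) (by norm_num)
  · exact prime_one 45 991 (by norm_num) (by norm_num) (by norm_num)
  · exact prime_one 46 37 (by norm_num) (by norm_num) (by norm_num)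
  · exact prime_one 47 541 (by norm_num) (by norm_num) (by norm_num)
  · exact prime_one 48 1129 (by norm_num) (by norm_num) (by norm_num)
  · exact prime_one 49 11 (by norm_num) (by norm_num) (by norm_num)
  · exact prime_one 50 613 (by norm_num) (by norm_num) (by norm_num)
  · exact prime_one 51 11 (by norm_num) (by norm_num) (by norm_num)
  · exact prime_one 52 1327 (by norm_num) (by norm_num) (by norm_num)
  · exact prime_one 53 197 (by norm_num) (by norm_num) (by norm_num)
  · exact prime_one 54 179 (by norm_num) (by norm_num) (by norm_num)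
  · exact prime_one 55 743 (by norm_num) (by norm_num) (by norm_num)
  · exact prime_one 56 23 (by norm_num) (by norm_num) (by norm_num)
  · exact prime_one 57 1597 (by norm_num) (by norm_num) (by norm_num)
  · exact prime_one 58 827 (by norm_num) (by norm_num) (by norm_num)
  · exact prime_one 59 107 (by norm_num) (by norm_num) (by norm_num)
  · exact prime_one 60 11 (by norm_num) (by norm_num) (by norm_num)
  · exact prime_one 61 1831 (by norm_num) (by norm_num) (by norm_num)
  · exact prime_one 62 11 (by norm_num) (by norm_num) (by norm_num)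
  · exact prime_one 63 977 (by norm_num) (by norm_num) (by norm_num)
  · exact prime_one 64 2017 (by norm_num) (by norm_num) (by norm_num)
  · exact prime_one 65 2081 (by norm_num) (by norm_num) (by norm_num)
  · exact prime_one 66 29 (by norm_num) (by norm_num) (by norm_num)
  · exact prime_one 67 79 (by norm_num) (by norm_num) (by norm_num)
  · exact prime_one 68 43 (by norm_num) (by norm_num) (by norm_num)
  · exact prime_one 69 2347 (by norm_num) (by norm_num) (by norm_num)
  · exact prime_one 70 151 (by norm_num) (by norm_num) (by norm_num)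
  · exact prime_one 71 11 (by norm_num) (by norm_num) (by norm_num)
  · exact prime_one 72 2557 (by norm_num) (by norm_num) (by norm_num)
  · exact prime_one 73 11 (by norm_num) (by norm_num) (by norm_num)
  · exact prime_one 74 193 (by norm_num) (by norm_num) (by norm_num)
  · exact prime_one 75 347 (by norm_num) (by norm_num) (by norm_num)
  · exact prime_one 76 2851 (by norm_num) (by norm_num) (by norm_num)
  · exact prime_one 77 2927 (by norm_num) (by norm_num) (by norm_num)
  · exact prime_one 78 751 (by norm_num) (by norm_num) (by norm_num)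
  · exact prime_one 79 23 (by norm_num) (by norm_num) (by norm_num)
  · exact prime_one 80 29 (by norm_num) (by norm_num) (by norm_num)
  · exact prime_one 81 463 (by norm_num) (by norm_num) (by norm_num)
  · exact prime_one 82 11 (by norm_num) (by norm_num) (by norm_num)
  · exact prime_one 83 23 (by norm_num) (by norm_num) (by norm_num)
  · exact prime_one 84 11 (by norm_num) (by norm_num) (by norm_num)
  · exact prime_one 85 3571 (by norm_num) (by norm_num) (by norm_num)
  · exact prime_one 86 457 (by norm_num) (by norm_num) (by norm_num)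
  · exact prime_one 87 1871 (by norm_num) (by norm_num) (by norm_num)
  · exact prime_one 88 547 (by norm_num) (by norm_num) (by norm_num)
  · exact prime_one 89 3917 (by norm_num) (by norm_num) (by norm_num)
  · exact prime_one 90 2003 (by norm_num) (by norm_num) (by norm_num)
  · exact absurd rfl e1
  · exact prime_one 92 53 (by norm_num) (by norm_num) (by norm_num)
  · exact prime_one 93 11 (by norm_num) (by norm_num) (by norm_num)
  · exact prime_one 94 1093 (by norm_num) (by norm_num) (by norm_num)
  · exact prime_one 95 11 (by norm_num) (by norm_num) (by norm_num)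
  · exact prime_one 96 4561 (by norm_num) (by norm_num) (by norm_num)
  · exact prime_one 97 4657 (by norm_num) (by norm_num) (by norm_num)
  · exact prime_one 98 2377 (by norm_num) (by norm_num) (by norm_num)
  · exact prime_one 99 1213 (by norm_num) (by norm_num) (by norm_num)
  · exact prime_one 100 4951 (by norm_num) (by norm_num) (by norm_num)
  · exact prime_one 101 5051 (by norm_num) (by norm_num) (by norm_num)
  · exact prime_one 102 23 (by norm_num) (by norm_num) (by norm_num)
  · exact prime_one 103 37 (by norm_num) (by norm_num) (by norm_num)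
  · exact prime_one 104 487 (by norm_num) (by norm_num) (by norm_num)
  · exact prime_one 105 43 (by norm_num) (by norm_num) (by norm_num)
  · exact prime_one 106 23 (by norm_num) (by norm_num) (by norm_num)
  · exact prime_one 107 709 (by norm_num) (by norm_num) (by norm_num)
  · exact prime_one 108 5779 (by norm_num) (by norm_num) (by norm_num)
  · exact prime_one 109 29 (by norm_num) (by norm_num) (by norm_num)
  · exact prime_one 110 1499 (by norm_num) (by norm_num) (by norm_num)
  · exact prime_one 111 43 (by norm_num) (by norm_num) (by norm_num)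
  · exact prime_one 112 6217 (by norm_num) (by norm_num) (by norm_num)
  · exact prime_one 113 6329 (by norm_num) (by norm_num) (by norm_num)
  · exact prime_one 114 3221 (by norm_num) (by norm_num) (by norm_num)
  · exact prime_one 115 149 (by norm_num) (by norm_num) (by norm_num)
  · exact prime_one 116 953 (by norm_num) (by norm_num) (by norm_num)
  · exact prime_one 117 617 (by norm_num) (by norm_num) (by norm_num)
  · exact prime_one 118 863 (by norm_num) (by norm_num) (by norm_num)
  · exact prime_one 119 3511 (by norm_num) (by norm_num) (by norm_num)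
  · exact prime_one 120 37 (by norm_num) (by norm_num) (by norm_num)
  · exact prime_one 121 53 (by norm_num) (by norm_num) (by norm_num)
  · exact prime_one 122 3691 (by norm_num) (by norm_num) (by norm_num)
  · exact prime_one 123 67 (by norm_num) (by norm_num) (by norm_num)
  · exact prime_one 124 29 (by norm_num) (by norm_num) (by norm_num)
  · exact prime_one 125 23 (by norm_num) (by norm_num) (by norm_num)
  · exact prime_one 126 179 (by norm_num) (by norm_num) (by norm_num)
  · exact prime_one 127 4001 (by norm_num) (by norm_num) (by norm_num)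
  · exact prime_one 128 739 (by norm_num) (by norm_num) (by norm_num)
  · exact prime_one 129 23 (by norm_num) (by norm_num) (by norm_num)
  · exact prime_one 130 599 (by norm_num) (by norm_num) (by norm_num)
  · exact prime_one 131 2129 (by norm_num) (by norm_num) (by norm_num)
  · exact prime_one 132 8647 (by norm_num) (by norm_num) (by norm_num)
  · exact prime_one 133 8779 (by norm_num) (by norm_num) (by norm_num)
  · exact prime_one 134 557 (by norm_num) (by norm_num) (by norm_num)
  · exact prime_one 135 4523 (by norm_num) (by norm_num) (by norm_num)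
  · exact prime_one 136 9181 (by norm_num) (by norm_num) (by norm_num)

theorem squares (p : ℕ) (hp : p.Prime) (h2 : p ≠ 2) :
    ¬ Tiles (TStar (p ^ 2)) ∧ ¬ Tiles (TStar (p ^ 2 + 1)) := by
  rcases Nat.lt_or_ge p 5 with h | h
  · have h3 : p = 3 := by
      have := hp.two_le
      interval_cases p
      · exact absurd rfl h2
      · rfl
      · exact absurd hp (by norm_num)
    subst h3
    exact ⟨small_star _ (by norm_num) (by norm_num) (by norm_num) (by norm_num) (by norm_num)
      (by norm_num) (by norm_num) (by norm_num), small_star _ (by norm_num) (by norm_num)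
      (by norm_num) (by norm_num) (by norm_num) (by norm_num) (by norm_num) (by norm_num)⟩
  · refine ⟨sq_star _ p hp h (by nlinarith) (dvd_mul_right _ _) (by omega),
      sq_star _ p hp h (by nlinarith) ?_ (by omega)⟩
    rw [Nat.add_sub_cancel]
    exact dvd_mul_left _ _

end Pool.Agent.Run7.h215.TIL
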