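import Mathlib

set_option autoImplicit false

/-!
# Tilings of the symmetric group by transpositions: definitions
-/

namespace Pool.Agent.Run7.h215.TIL

open Equiv

/-- the set of all transpositions -/
def TStar (n : ℕ) : Set (Perm (Fin n)) := {σ | σ.IsSwap}

/-- the identity and all transpositions -/
def TOne (n : ℕ) : Set (Perm (Fin n)) := {σ | σ = 1 ∨ σ.IsSwap}

/-- `T` tiles the symmetric group: for some `Y` every permutation has exactly one factorisation
`t * y` with `t ∈ T`, `y ∈ Y` -/
def Tiles {n : ℕ} (T : Set (Perm (Fin n))) : Prop :=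
  ∃ Y : Set (Perm (Fin n)), ∀ g : Perm (Fin n),
    ∃! p : Perm (Fin n) × Perm (Fin n), p.1 ∈ T ∧ p.2 ∈ Y ∧ p.1 * p.2 = g

end Pool.Agent.Run7.h215.TIL
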