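import Pool.Agent.Helper923.HMertens

set_option autoImplicit false

/-! # Mertens' theorem for the quadratic character modulo 7 -/

namespace Pool.Agent.Run7.h215.TIL

open Finset

/-- the quadratic character modulo 7 -/
noncomputable def chi (n : ℕ) : ℝ :=
  if n % 7 = 1 ∨ n % 7 = 2 ∨ n % 7 = 4 then 1 else if n % 7 = 0 then 0 else -1

lemma chi_mul (m n : ℕ) : chi (m * n) = chi m * chi n := by
  unfold chi
  rw [Nat.mul_mod]
  have h1 : m % 7 < 7 := Nat.mod_lt _ (by norm_num)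
  have h2 : n % 7 < 7 := Nat.mod_lt _ (by norm_num)
  generalize m % 7 = a at *
  generalize n % 7 = b at *
  interval_cases a <;> interval_cases b <;> norm_num

lemma abs_chi (n : ℕ) : |chi n| ≤ 1 := by
  unfold chi
  split_ifs <;> norm_num

/-- the partial sums -/
noncomputable def XX (n : ℕ) : ℝ :=
  if n % 7 = 0 ∨ n % 7 = 6 then 0 else if n % 7 = 2 ∨ n % 7 = 4 then 2 else 1

lemma XX_nonneg (n : ℕ) : 0 ≤ XX n := by
  unfold XX; split_ifs <;> norm_num

lemma XX_le (n : ℕ) : XX n ≤ 2 := by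
  unfold XX; split_ifs <;> norm_num

lemma XX_succ (n : ℕ) : chi (n + 1) = XX (n + 1) - XX n := by
  unfold chi XX
  have h1 : n % 7 < 7 := Nat.mod_lt _ (by norm_num)
  have h2 : (n + 1) % 7 = (n % 7 + 1) % 7 := by omega
  rw [h2]
  generalize n % 7 = a at *
  interval_cases a <;> norm_num

lemma abel_aux (w : ℕ → ℝ) (M : ℕ) (hw0 : ∀ n, M < n → 0 ≤ w n)
    (hw : ∀ n, M < n → w (n + 1) ≤ w n) (k : ℕ) :
    XX (M + (k + 1)) * w (M + (k + 1)) - XX M * w (M + 1) ≤
      ∑ m ∈ Finset.Ioc M (M + (k + 1)), chi m * w m ∧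
    ∑ m ∈ Finset.Ioc M (M + (k + 1)), chi m * w m ≤
      XX (M + (k + 1)) * w (M + (k + 1)) - XX M * w (M + 1) +
        2 * (w (M + 1) - w (M + (k + 1))) := by
  induction k with
  | zero =>
    have h : Finset.Ioc M (M + (0 + 1)) = {M + 1} := by
      ext x; simp only [Finset.mem_Ioc, Finset.mem_singleton]; omega
    rw [h, Finset.sum_singleton, XX_succ]
    simp only [Nat.zero_add]
    constructor <;> linarith
  | succ k ih =>
    have h : ∑ m ∈ Finset.Ioc M (M + (k + 1 + 1)), chi m * w m =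
        ∑ m ∈ Finset.Ioc M (M + (k + 1)), chi m * w m +
          chi (M + (k + 1) + 1) * w (M + (k + 1) + 1) := by
      have : M + (k + 1 + 1) = M + (k + 1) + 1 := by ring
      rw [this, Finset.sum_Ioc_succ_top (by omega)]
    have e : M + (k + 1 + 1) = M + (k + 1) + 1 := by ring
    rw [h, XX_succ, e]
    have h1 := hw (M + (k + 1)) (by omega)
    have h2 := XX_nonneg (M + (k + 1))
    have h3 := XX_le (M + (k + 1))
    constructor <;> nlinarith

lemma abel (w : ℕ → ℝ) (M N : ℕ) (hMN : M ≤ N) (hw0 : ∀ n, M < n → 0 ≤ w n)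
    (hw : ∀ n, M < n → w (n + 1) ≤ w n) :
    |∑ m ∈ Finset.Ioc M N, chi m * w m| ≤ 2 * w (M + 1) := by
  rcases Nat.eq_or_lt_of_le hMN with h | h
  · rw [← h, Finset.Ioc_self, Finset.sum_empty, abs_zero]
    have := hw0 (M + 1) (by omega)
    linarith
  · obtain ⟨k, rfl⟩ : ∃ k, N = M + (k + 1) := ⟨N - M - 1, by omega⟩
    obtain ⟨h1, h2⟩ := abel_aux w M hw0 hw k
    have h3 := hw0 (M + 1) (by omega)
    have h4 := hw0 (M + (k + 1)) (by omega)
    have h5 := XX_nonneg (M + (k + 1))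
    have h6 := XX_le (M + (k + 1))
    have h7 := XX_nonneg M
    have h8 := XX_le M
    rw [abs_le]
    constructor <;> nlinarith

/-- partial sums of the L-function at 1 -/
noncomputable def SS (N : ℕ) : ℝ := ∑ m ∈ Finset.Icc 1 N, chi m * (1 / (m : ℝ))

lemma sum_split (f : ℕ → ℝ) {M N : ℕ} (h : M ≤ N) :
    ∑ m ∈ Finset.Icc 1 N, f m = ∑ m ∈ Finset.Icc 1 M, f m + ∑ m ∈ Finset.Ioc M N, f m := by
  rw [← Finset.sum_union]
  · refine Finset.sum_congr ?_ fun _ _ => rfl
    ext x; simp only [Finset.mem_union, Finset.mem_Icc, Finset.mem_Ioc]; omega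
  · rw [Finset.disjoint_left]
    intro x h1 h2
    rw [Finset.mem_Icc] at h1
    rw [Finset.mem_Ioc] at h2
    omega

lemma one_div_anti (n : ℕ) (hn : 0 < n) : 1 / ((n + 1 : ℕ) : ℝ) ≤ 1 / (n : ℝ) :=
  one_div_le_one_div_of_le (by exact_mod_cast hn) (by exact_mod_cast Nat.le_succ n)

lemma SS_diff {M N : ℕ} (h : M ≤ N) : |SS M - SS N| ≤ 2 * (1 / ((M + 1 : ℕ) : ℝ)) := by
  have h1 := abel (fun n => 1 / (n : ℝ)) M N h (fun n _ => by positivity)
    (fun n hn => one_div_anti n (by omega))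
  have h2 : SS N = SS M + ∑ m ∈ Finset.Ioc M N, chi m * (1 / (m : ℝ)) := sum_split _ h
  rw [h2, sub_add_cancel_left, abs_neg]
  exact h1

lemma SS_two : SS 2 = 3 / 2 := by
  unfold SS
  rw [show Finset.Icc 1 2 = {1, 2} by decide, Finset.sum_pair (by norm_num)]
  unfold chi
  norm_num

lemma SS_lower (N : ℕ) (hN : 1 ≤ N) : 1 / 2 ≤ SS N := by
  rcases Nat.lt_or_ge N 2 with h | h
  · have : N = 1 := by omega
    subst this
    unfold SS chi
    norm_num
  · have h1 := (abs_le.1 (SS_diff h)).2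
    rw [SS_two] at h1
    norm_num at h1
    linarith

lemma log_div_anti (n : ℕ) (hn : 2 < n) :
    Real.log ((n + 1 : ℕ) : ℝ) / ((n + 1 : ℕ) : ℝ) ≤ Real.log (n : ℝ) / (n : ℝ) := by
  have h3 : (3 : ℝ) ≤ n := by exact_mod_cast hn
  have he : Real.exp 1 ≤ 3 := by have := Real.exp_one_lt_d9; linarith
  refine Real.log_div_self_antitoneOn (show Real.exp 1 ≤ (n : ℝ) by linarith)
    (show Real.exp 1 ≤ ((n + 1 : ℕ) : ℝ) from ?_) ?_
  · push_cast; linarith
  · exact_mod_cast Nat.le_succ n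

lemma logsum (N : ℕ) : |∑ n ∈ Finset.Icc 1 N, chi n * (Real.log n / n)| ≤ 3 := by
  have hl2 := Real.log_two_lt_d9
  have hl2' := Real.log_two_gt_d9
  have hI : ∑ n ∈ Finset.Icc 1 2, chi n * (Real.log n / n) = Real.log 2 / 2 := by
    rw [show Finset.Icc 1 2 = {1, 2} by decide, Finset.sum_pair (by norm_num)]
    unfold chi
    norm_num
  rcases Nat.lt_or_ge N 2 with h | h
  · interval_cases N
    · simp
    · simp
  · have h1 := abel (fun n => Real.log n / n) 2 N h
      (fun n hn => div_nonneg (Real.log_nonneg (by exact_mod_cast (by omega : 1 ≤ n)))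
        (by positivity))
      (fun n hn => log_div_anti n hn)
    rw [sum_split _ h, hI]
    have h3 : Real.log ((2 + 1 : ℕ) : ℝ) / ((2 + 1 : ℕ) : ℝ) ≤ 1 := by
      rw [div_le_one (by positivity)]
      have := Real.log_le_sub_one_of_pos (show (0 : ℝ) < ((2 + 1 : ℕ) : ℝ) by positivity)
      linarith
    rw [abs_le] at h1 ⊢
    constructor <;> linarith [h1.1, h1.2]

lemma double_sum (F : ℕ → ℕ → ℝ) (N : ℕ) :
    ∑ n ∈ Finset.Icc 1 N, ∑ d ∈ n.divisors, F d (n / d) =
      ∑ d ∈ Finset.Icc 1 N, ∑ m ∈ Finset.Icc 1 (N / d), F d m := by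
  rw [Finset.sum_sigma', Finset.sum_sigma']
  refine Finset.sum_bij' (fun x _ => ⟨x.2, x.1 / x.2⟩) (fun y _ => ⟨y.1 * y.2, y.1⟩) ?_ ?_ ?_ ?_ ?_
  · rintro ⟨n, d⟩ h
    simp only [Finset.mem_sigma, Finset.mem_Icc, Nat.mem_divisors] at h ⊢
    obtain ⟨⟨h1, h2⟩, h3, h4⟩ := h
    have hd : 0 < d := Nat.pos_of_dvd_of_pos h3 (by omega)
    have hdn := Nat.le_of_dvd (by omega) h3
    exact ⟨⟨hd, by omega⟩, Nat.div_pos hdn hd, Nat.div_le_div_right h2⟩
  · rintro ⟨d, m⟩ h
    simp only [Finset.mem_sigma, Finset.mem_Icc, Nat.mem_divisors] at h ⊢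
    obtain ⟨⟨h1, h2⟩, h3, h4⟩ := h
    have h5 : m * d ≤ N := (Nat.le_div_iff_mul_le (by omega)).1 h4
    have h6 : 0 < d * m := Nat.mul_pos (by omega) (by omega)
    refine ⟨⟨h6, by rw [mul_comm]; exact h5⟩, Dvd.intro _ rfl, by omega⟩
  · rintro ⟨n, d⟩ h
    simp only [Finset.mem_sigma, Finset.mem_Icc, Nat.mem_divisors] at h
    simp only [Sigma.mk.injEq, heq_eq_eq, and_true]
    exact Nat.mul_div_cancel' h.2.1
  · rintro ⟨d, m⟩ h
    simp only [Finset.mem_sigma, Finset.mem_Icc] at h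
    simp only [Sigma.mk.injEq, heq_eq_eq, true_and]
    exact Nat.mul_div_cancel_left m (by omega)
  · rintro ⟨n, d⟩ _
    rfl

open ArithmeticFunction in
lemma vm_sum_le (N : ℕ) : ∑ d ∈ Finset.Icc 1 N, vonMangoldt d ≤ 6 * N := by
  have h := Chebyshev.psi_le_const_mul_self (x := (N : ℝ)) (by positivity)
  rw [Chebyshev.psi_eq_sum_Icc, Nat.floor_natCast] at h
  have h1 : ∑ d ∈ Finset.Icc 1 N, vonMangoldt d ≤ ∑ d ∈ Finset.Icc 0 N, vonMangoldt d :=
    Finset.sum_le_sum_of_subset_of_nonneg (Finset.Icc_subset_Icc_left (by norm_num))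
      (fun _ _ _ => vonMangoldt_nonneg)
  have h3 : Real.log 4 ≤ 2 := by
    have : Real.log 4 = 2 * Real.log 2 := by
      rw [show (4 : ℝ) = 2 ^ 2 by norm_num, Real.log_pow]; norm_num
    have := Real.log_two_lt_d9
    linarith
  have h4 : (0 : ℝ) ≤ N := by positivity
  nlinarith

open ArithmeticFunction in
lemma T_bound (N : ℕ) (hN : 1 ≤ N) :
    |∑ d ∈ Finset.Icc 1 N, vonMangoldt d * (chi d / d)| ≤ 30 := by
  have hN0 : (0 : ℝ) < N := by exact_mod_cast hN
  have hid : ∑ n ∈ Finset.Icc 1 N, chi n * (Real.log n / n) =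
      ∑ d ∈ Finset.Icc 1 N, vonMangoldt d * (chi d / d) * SS (N / d) := by
    have h1 := double_sum (fun d m => vonMangoldt d * (chi d / d) * (chi m * (1 / (m : ℝ)))) N
    have h2 : ∑ d ∈ Finset.Icc 1 N, vonMangoldt d * (chi d / d) * SS (N / d) =
        ∑ d ∈ Finset.Icc 1 N, ∑ m ∈ Finset.Icc 1 (N / d),
          vonMangoldt d * (chi d / d) * (chi m * (1 / (m : ℝ))) := by
      refine Finset.sum_congr rfl fun d _ => ?_
      unfold SS
      rw [Finset.mul_sum]
    rw [h2, ← h1]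
    refine Finset.sum_congr rfl fun n hn => ?_
    rw [Finset.mem_Icc] at hn
    rw [← vonMangoldt_sum, Finset.sum_div, Finset.mul_sum]
    refine Finset.sum_congr rfl fun d hd => ?_
    rw [Nat.mem_divisors] at hd
    obtain ⟨m, rfl⟩ := hd.1
    have hd0 : 0 < d := Nat.pos_of_ne_zero fun h => by subst h; simp at hd
    have hm0 : 0 < m := Nat.pos_of_ne_zero fun h => by subst h; simp at hd
    rw [Nat.mul_div_cancel_left m hd0, chi_mul]
    have hd' : (d : ℝ) ≠ 0 := by exact_mod_cast hd0.ne'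
    have hm' : (m : ℝ) ≠ 0 := by exact_mod_cast hm0.ne'
    push_cast
    field_simp
  set T := ∑ d ∈ Finset.Icc 1 N, vonMangoldt d * (chi d / d) with hT
  have hdiff : |∑ d ∈ Finset.Icc 1 N, vonMangoldt d * (chi d / d) * SS (N / d) - T * SS N| ≤
      12 := by
    rw [hT, Finset.sum_mul, ← Finset.sum_sub_distrib]
    refine (Finset.abs_sum_le_sum_abs _ _).trans ?_
    have h1 : ∀ d ∈ Finset.Icc 1 N,
        |vonMangoldt d * (chi d / d) * SS (N / d) - vonMangoldt d * (chi d / d) * SS N| ≤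
          vonMangoldt d * (2 / N) := by
      intro d hd
      rw [Finset.mem_Icc] at hd
      have hd0 : (0 : ℝ) < d := by exact_mod_cast hd.1
      rw [← mul_sub, abs_mul, abs_mul, abs_div, abs_of_nonneg vonMangoldt_nonneg,
        abs_of_pos hd0, mul_assoc]
      refine mul_le_mul_of_nonneg_left ?_ vonMangoldt_nonneg
      have h2 := SS_diff (Nat.div_le_self N d)
      have h3 : (1 : ℝ) / ((N / d + 1 : ℕ) : ℝ) ≤ d / N := by
        rw [div_le_div_iff₀ (by positivity) hN0, one_mul]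
        have h4 := Nat.lt_div_mul_add (a := N) hd.1
        have h5 : (N : ℝ) < ((N / d : ℕ) : ℝ) * d + d := by exact_mod_cast h4
        push_cast at h5 ⊢
        nlinarith
      have h6 : |chi d| / d ≤ 1 / d := div_le_div_of_nonneg_right (abs_chi d) hd0.le
      calc |chi d| / d * |SS (N / d) - SS N| ≤ 1 / d * (2 * (d / N)) := by
            refine mul_le_mul h6 (h2.trans ?_) (abs_nonneg _) (by positivity)
            linarith
        _ = 2 / N := by field_simp
    refine (Finset.sum_le_sum h1).trans ?_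
    rw [← Finset.sum_mul]
    have h2 := mul_le_mul_of_nonneg_right (vm_sum_le N) (show (0 : ℝ) ≤ 2 / N by positivity)
    refine h2.trans (le_of_eq ?_)
    field_simp
    norm_num
  have hlog := logsum N
  rw [hid] at hlog
  have hS := SS_lower N hN
  have h1 : |T * SS N| ≤ 15 := by
    rw [abs_le] at hdiff hlog ⊢
    constructor <;> linarith [hdiff.1, hdiff.2, hlog.1, hlog.2]
  rw [abs_mul, abs_of_pos (show (0 : ℝ) < SS N by linarith)] at h1
  nlinarith [abs_nonneg T]

open ArithmeticFunction in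
lemma vm_div_le (N : ℕ) (hN : 1 ≤ N) :
    ∑ d ∈ Finset.Icc 1 N, vonMangoldt d / d ≤ Real.log N + 6 := by
  have hN0 : (0 : ℝ) < N := by exact_mod_cast hN
  have h1 := double_sum (fun d _ => vonMangoldt d) N
  have h2 : ∑ n ∈ Finset.Icc 1 N, ∑ d ∈ n.divisors, vonMangoldt d ≤ N * Real.log N := by
    calc ∑ n ∈ Finset.Icc 1 N, ∑ d ∈ n.divisors, vonMangoldt d
        = ∑ n ∈ Finset.Icc 1 N, Real.log n := Finset.sum_congr rfl fun n _ => vonMangoldt_sum
      _ ≤ ∑ n ∈ Finset.Icc 1 N, Real.log N := by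
          refine Finset.sum_le_sum fun n hn => ?_
          rw [Finset.mem_Icc] at hn
          exact Real.log_le_log (by exact_mod_cast hn.1) (by exact_mod_cast hn.2)
      _ = N * Real.log N := by rw [Finset.sum_const, Nat.card_Icc, nsmul_eq_mul]; simp
  rw [h1] at h2
  have h3 : ∑ d ∈ Finset.Icc 1 N, vonMangoldt d / d * N ≤
      ∑ d ∈ Finset.Icc 1 N, (∑ _m ∈ Finset.Icc 1 (N / d), vonMangoldt d + vonMangoldt d) := by
    refine Finset.sum_le_sum fun d hd => ?_
    rw [Finset.mem_Icc] at hd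
    have hd0 : (0 : ℝ) < d := by exact_mod_cast hd.1
    rw [Finset.sum_const, Nat.card_Icc, nsmul_eq_mul]
    have h4 := Nat.lt_div_mul_add (a := N) hd.1
    have h5 : (N : ℝ) < ((N / d : ℕ) : ℝ) * d + d := by exact_mod_cast h4
    have h6 : (N : ℝ) / d ≤ ((N / d : ℕ) : ℝ) + 1 := by
      rw [div_le_iff₀ hd0]; linarith
    have h7 := mul_le_mul_of_nonneg_left h6 (vonMangoldt_nonneg (n := d))
    simp only [Nat.add_sub_cancel]
    calc vonMangoldt d / d * N = vonMangoldt d * (N / d) := by ring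
      _ ≤ vonMangoldt d * (((N / d : ℕ) : ℝ) + 1) := h7
      _ = _ := by ring
  rw [Finset.sum_add_distrib, ← Finset.sum_mul] at h3
  have h4 := vm_sum_le N
  have h5 : (∑ d ∈ Finset.Icc 1 N, vonMangoldt d / d) * N ≤ (Real.log N + 6) * N := by linarith
  exact le_of_mul_le_mul_right h5 hN0

open ArithmeticFunction in
/-- **Mertens' theorem** for the quadratic character modulo 7 -/
theorem mertens_chi : ∃ C : ℝ, 0 ≤ C ∧ ∀ N : ℕ, 1 ≤ N →
    |∑ p ∈ (Finset.Icc 1 N).filter Nat.Prime, chi p * (Real.log p / p)| ≤ C := by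
  obtain ⟨C1, hC1⟩ := Pool.Agent.Helper923.HMertens.mertens_log
  have hC10 : 0 ≤ C1 := (abs_nonneg _).trans (hC1 1 le_rfl)
  refine ⟨36 + C1, by positivity, fun N hN => ?_⟩
  have h1 := T_bound N hN
  have h2 := vm_div_le N hN
  have h3 := (abs_le.1 (hC1 N hN)).1
  have e1 : ∑ d ∈ Finset.Icc 1 N, vonMangoldt d / d =
      ∑ p ∈ (Finset.Icc 1 N).filter Nat.Prime, Real.log p / p +
        ∑ d ∈ (Finset.Icc 1 N).filter (fun d => ¬ Nat.Prime d), vonMangoldt d / d := by
    rw [← Finset.sum_filter_add_sum_filter_not (Finset.Icc 1 N) Nat.Prime]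
    congr 1
    refine Finset.sum_congr rfl fun p hp => ?_
    rw [Finset.mem_filter] at hp
    rw [vonMangoldt_apply_prime hp.2]
  have e2 : ∑ d ∈ Finset.Icc 1 N, vonMangoldt d * (chi d / d) =
      ∑ p ∈ (Finset.Icc 1 N).filter Nat.Prime, chi p * (Real.log p / p) +
        ∑ d ∈ (Finset.Icc 1 N).filter (fun d => ¬ Nat.Prime d), vonMangoldt d * (chi d / d) := by
    rw [← Finset.sum_filter_add_sum_filter_not (Finset.Icc 1 N) Nat.Prime]
    congr 1
    refine Finset.sum_congr rfl fun p hp => ?_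
    rw [Finset.mem_filter] at hp
    rw [vonMangoldt_apply_prime hp.2]
    ring
  have h4 : |∑ d ∈ (Finset.Icc 1 N).filter (fun d => ¬ Nat.Prime d), vonMangoldt d * (chi d / d)| ≤
      ∑ d ∈ (Finset.Icc 1 N).filter (fun d => ¬ Nat.Prime d), vonMangoldt d / d := by
    refine (Finset.abs_sum_le_sum_abs _ _).trans ?_
    refine Finset.sum_le_sum fun d hd => ?_
    rw [Finset.mem_filter, Finset.mem_Icc] at hd
    have hd0 : (0 : ℝ) < d := by exact_mod_cast hd.1.1
    rw [abs_mul, abs_div, abs_of_nonneg vonMangoldt_nonneg, abs_of_pos hd0, ← mul_div_assoc]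
    refine div_le_div_of_nonneg_right ?_ hd0.le
    have := mul_le_mul_of_nonneg_left (abs_chi d) (vonMangoldt_nonneg (n := d))
    linarith
  rw [abs_le] at h1 h4 ⊢
  constructor <;> linarith [h1.1, h1.2, h4.1, h4.2]

end Pool.Agent.Run7.h215.TIL
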