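import Pool.Agent.Run7.h215.TIL.Core
import Pool.Agent.Helper923.HMertens
import Pool.Agent.Run7.h215.TIL.MertSeven

set_option autoImplicit false

/-! # Tilings of the symmetric group: the lower density for the transpositions and the identity -/

namespace Pool.Agent.Run7.h215.TIL

open Finset Filter Topology

/-- the size of `T_n` -/
def W (n : ℕ) : ℕ := n * (n - 1) / 2 + 1

lemma two_W (n : ℕ) (hn : 1 ≤ n) : 2 * (W n : ℤ) = (n : ℤ) * (n - 1) + 2 := by
  obtain ⟨m, rfl⟩ : ∃ m, n = m + 1 := ⟨n - 1, by omega⟩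
  have h : Even ((m + 1) * m) := by rw [mul_comm]; exact Nat.even_mul_succ_self m
  have h2 : 2 * ((m + 1) * m / 2) = (m + 1) * m := Nat.mul_div_cancel' h.two_dvd
  have h3 : 2 * W (m + 1) = (m + 1) * m + 2 := by
    simp only [W, Nat.add_sub_cancel]; omega
  have h4 : (2 * (W (m + 1) : ℤ)) = ((m + 1) * m + 2 : ℤ) := by exact_mod_cast h3
  rw [h4]; push_cast; ring

lemma W_pos (n : ℕ) : 0 < W n := Nat.succ_pos _

lemma W_lower (n : ℕ) (hn : 1 ≤ n) : n ^ 2 ≤ 4 * W n := by
  have := two_W n hn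
  zify
  nlinarith [sq_nonneg ((n : ℤ) - 1)]

lemma W_upper (n N : ℕ) (hn : 1 ≤ n) (hN : n ≤ N) : W n ≤ N ^ 2 := by
  have h := two_W n hn
  have h1 : W n ≤ n ^ 2 := by
    zify
    have : (1 : ℤ) ≤ n := by exact_mod_cast hn
    nlinarith
  exact h1.trans (Nat.pow_le_pow_left hN 2)

/-- two roots at most -/
lemma roots (p k x y : ℕ) (hp : p.Prime) (h7 : p ≠ 7) (hx : 1 ≤ x) (hy : 1 ≤ y)
    (h1 : p ^ k ∣ W x) (h2 : p ^ k ∣ W y) :
    ((p ^ k : ℕ) : ℤ) ∣ (x : ℤ) - y ∨ ((p ^ k : ℕ) : ℤ) ∣ (x : ℤ) + y - 1 := by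
  rcases Nat.eq_zero_or_pos k with hk | hk
  · left; rw [hk]; simp
  have hpZ : Prime (p : ℤ) := Nat.prime_iff_prime_int.1 hp
  have e1 := two_W x hx
  have e2 := two_W y hy
  have h1' : ((p ^ k : ℕ) : ℤ) ∣ (W x : ℤ) := by exact_mod_cast h1
  have h2' : ((p ^ k : ℕ) : ℤ) ∣ (W y : ℤ) := by exact_mod_cast h2
  have hprod : ((p ^ k : ℕ) : ℤ) ∣ ((x : ℤ) - y) * (x + y - 1) := by
    have : ((x : ℤ) - y) * (x + y - 1) = 2 * W x - 2 * W y := by rw [e1, e2]; ring
    rw [this]
    exact dvd_sub (h1'.mul_left 2) (h2'.mul_left 2)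
  push_cast at hprod ⊢
  by_cases hA : (p : ℤ) ∣ (x : ℤ) - y
  · left
    refine hpZ.pow_dvd_of_dvd_mul_right k ?_ hprod
    intro hB
    have h3 : (p : ℤ) ∣ 2 * x - 1 := by
      have := dvd_add hA hB
      have e : (x : ℤ) - y + (x + y - 1) = 2 * x - 1 := by ring
      rwa [e] at this
    have h4 : (p : ℤ) ∣ W x := by
      have : (p : ℤ) ∣ ((p ^ k : ℕ) : ℤ) := by
        push_cast; exact dvd_pow_self _ (by omega)
      exact this.trans h1'
    have h5 : (p : ℤ) ∣ 7 := by
      have e : (7 : ℤ) = 4 * (2 * W x) - (2 * x - 1) * (2 * x - 1) := by rw [e1]; ring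
      rw [e]
      exact dvd_sub ((h4.mul_left 2).mul_left 4) (h3.mul_left _)
    have h6 : p ∣ 7 := by exact_mod_cast h5
    exact h7 ((Nat.prime_dvd_prime_iff_eq hp (by norm_num)).1 h6)
  · right
    exact hpZ.pow_dvd_of_dvd_mul_left k hA hprod

lemma count_roots (p k N : ℕ) (hp : p.Prime) (h7 : p ≠ 7) :
    ((Finset.Icc 1 N).filter (fun n => p ^ k ∣ W n)).card ≤ 2 * (N / p ^ k + 1) := by
  classical
  set q := p ^ k with hq
  have hq0 : 0 < q := pow_pos hp.pos k
  set s := (Finset.Icc 1 N).filter (fun n => q ∣ W n) with hs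
  rcases s.eq_empty_or_nonempty with h | ⟨x, hx⟩
  · rw [h]; simp
  have hmem : ∀ n ∈ s, (1 ≤ n ∧ n ≤ N) ∧ q ∣ W n := by
    intro n hn
    rw [hs, Finset.mem_filter, Finset.mem_Icc] at hn
    exact hn
  have hx' := hmem x hx
  have hle := Finset.card_le_card_of_injOn (s := s)
    (t := (Finset.range (N / q + 1)) ×ˢ (Finset.univ : Finset Bool))
    (fun n => (n / q, decide ((q : ℤ) ∣ (n : ℤ) - x)))
    (by
      intro n hn
      rw [Finset.mem_coe] at hn
      simp only [Finset.coe_product, Finset.coe_range, Finset.coe_univ, Set.mem_prod, Set.mem_Iio,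
        Set.mem_univ, and_true]
      exact Nat.lt_succ_of_le (Nat.div_le_div_right (hmem n hn).1.2))
    (by
      intro n hn m hm hnm
      rw [Finset.mem_coe] at hn hm
      simp only [Prod.mk.injEq] at hnm
      obtain ⟨h1, h2⟩ := hnm
      have hn' := hmem n hn
      have hm' := hmem m hm
      have hd : (q : ℤ) ∣ (n : ℤ) - m := by
        by_cases hA : (q : ℤ) ∣ (n : ℤ) - x
        · have hB : (q : ℤ) ∣ (m : ℤ) - x := by
            rw [decide_eq_true hA] at h2
            exact of_decide_eq_true h2.symm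
          have := dvd_sub hA hB
          have e : (n : ℤ) - x - (m - x) = n - m := by ring
          rwa [e] at this
        · have hB : ¬ (q : ℤ) ∣ (m : ℤ) - x := by
            rw [decide_eq_false hA] at h2
            exact of_decide_eq_false h2.symm
          have h3 := (roots p k n x hp h7 hn'.1.1 hx'.1.1 hn'.2 hx'.2).resolve_left hA
          have h4 := (roots p k m x hp h7 hm'.1.1 hx'.1.1 hm'.2 hx'.2).resolve_left hB
          have := dvd_sub h3 h4
          have e : (n : ℤ) + x - 1 - (m + x - 1) = n - m := by ring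
          rwa [e] at this
      have hmod : m ≡ n [MOD q] := (Nat.modEq_iff_dvd).2 hd
      have e1 := Nat.div_add_mod n q
      have e2 := Nat.div_add_mod m q
      have e3 : m % q = n % q := hmod
      rw [← e1, ← e2, h1, e3])
  rw [Finset.card_product, Finset.card_range, Finset.card_univ, Fintype.card_bool] at hle
  omega

/-- the valuations for one prime -/
lemma sum_val (p N : ℕ) (hp : p.Prime) (h7 : p ≠ 7) :
    ∑ n ∈ Finset.Icc 1 N, (W n).factorization p ≤
      ∑ k ∈ Finset.Icc 1 (Nat.log p (N ^ 2)), 2 * (N / p ^ k + 1) := by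
  have h1 : ∀ n ∈ Finset.Icc 1 N, (W n).factorization p ≤
      ∑ k ∈ Finset.Icc 1 (Nat.log p (N ^ 2)), if p ^ k ∣ W n then 1 else 0 := by
    intro n hn
    rw [Finset.mem_Icc] at hn
    rw [Nat.factorization_eq_card_pow_dvd _ hp, ← Finset.card_filter]
    refine Finset.card_le_card fun k hk => ?_
    rw [Finset.mem_filter, Finset.mem_Ico] at hk
    rw [Finset.mem_filter, Finset.mem_Icc]
    refine ⟨⟨hk.1.1, ?_⟩, hk.2⟩
    refine Nat.le_log_of_pow_le hp.one_lt ?_
    exact (Nat.le_of_dvd (W_pos n) hk.2).trans (W_upper n N hn.1 hn.2)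
  refine (Finset.sum_le_sum h1).trans ?_
  rw [Finset.sum_comm]
  refine Finset.sum_le_sum fun k _ => ?_
  rw [← Finset.card_filter]
  exact count_roots p k N hp h7

lemma val_seven (n : ℕ) (hn : 1 ≤ n) : (W n).factorization 7 ≤ 1 := by
  by_contra hcon
  have h1 : 7 ^ 2 ∣ W n := by
    exact (Nat.Prime.pow_dvd_iff_le_factorization (by norm_num) (W_pos n).ne').2 (by omega)
  have e := two_W n hn
  have h2 : (49 : ℤ) ∣ W n := by exact_mod_cast h1
  obtain ⟨c, hc⟩ := h2
  have h3 : (2 * (n : ℤ) - 1) * (2 * n - 1) = 7 * (56 * c - 1) := by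
    have : (2 * (n : ℤ) - 1) * (2 * n - 1) = 4 * (2 * W n) - 7 := by rw [e]; ring
    rw [this, hc]; ring
  have h7 : Prime (7 : ℤ) := by norm_num
  have h4 : (7 : ℤ) ∣ 2 * n - 1 := by
    have h5 : (7 : ℤ) ∣ (2 * (n : ℤ) - 1) * (2 * n - 1) := ⟨_, h3⟩
    rcases h7.dvd_or_dvd h5 with h | h <;> exact h
  obtain ⟨d, hd⟩ := h4
  rw [hd] at h3
  have h6 : 7 * (d * d) = 56 * c - 1 := by linarith
  omega

/-- reciprocity: the prime factors of `W n` are `7` or squares modulo `7` -/
lemma chi_of_dvd (p n : ℕ) (hp : p.Prime) (h7 : p ≠ 7) (hn : 1 ≤ n) (hd : p ∣ W n) :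
    chi p = 1 := by
  by_cases h2 : p = 2
  · subst h2
    unfold chi
    norm_num
  have := Fact.mk hp
  have : Fact (Nat.Prime 7) := ⟨by norm_num⟩
  have e := two_W n hn
  have hdZ : (p : ℤ) ∣ W n := by exact_mod_cast hd
  have h77 : ¬ p ∣ 7 := fun h => h7 ((Nat.prime_dvd_prime_iff_eq hp (by norm_num)).1 h)
  have hne : (((-7 : ℤ)) : ZMod p) ≠ 0 := by
    intro h
    rw [ZMod.intCast_zmod_eq_zero_iff_dvd] at h
    have h3 : (p : ℤ) ∣ ((7 : ℕ) : ℤ) := by
      have := (dvd_neg.2 h)
      simpa using this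
    exact h77 (by exact_mod_cast h3)
  have hsq : legendreSym p (-7) = 1 := by
    rw [legendreSym.eq_one_iff p hne]
    refine ⟨((2 * (n : ℤ) - 1 : ℤ) : ZMod p), ?_⟩
    rw [← Int.cast_mul, ZMod.intCast_eq_intCast_iff_dvd_sub]
    have h4 : (2 * (n : ℤ) - 1) * (2 * n - 1) - -7 = 8 * W n := by
      have : (8 : ℤ) * W n = 4 * (2 * W n) := by ring
      rw [this, e]; ring
    rw [h4]
    exact hdZ.mul_left 8
  have hmul : legendreSym p (-7) = legendreSym p (-1) * legendreSym p 7 := by
    rw [← legendreSym.mul]; norm_num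
  have hodd := hp.eq_two_or_odd.resolve_left h2
  have hone : legendreSym 7 (p : ℤ) = 1 := by
    rcases (show p % 4 = 1 ∨ p % 4 = 3 by omega) with h | h
    · have h5 := legendreSym.quadratic_reciprocity_one_mod_four (p := p) (q := 7) h (by norm_num)
      rw [h5]
      rw [hmul, legendreSym.at_neg_one h2, ZMod.χ₄_nat_one_mod_four h, one_mul] at hsq
      exact_mod_cast hsq
    · have h5 := legendreSym.quadratic_reciprocity_three_mod_four (p := p) (q := 7) h (by norm_num)
      rw [h5]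
      rw [hmul, legendreSym.at_neg_one h2, ZMod.χ₄_nat_three_mod_four h] at hsq
      have : legendreSym p ((7 : ℕ) : ℤ) = -1 := by
        have h6 : legendreSym p ((7 : ℕ) : ℤ) = legendreSym p 7 := by norm_num
        rw [h6]; linarith
      rw [this]; norm_num
  rw [legendreSym.mod] at hone
  have h8 : ((p : ℤ) % ((7 : ℕ) : ℤ)) = ((p % 7 : ℕ) : ℤ) := by norm_cast
  rw [h8, jacobiSym.legendreSym.to_jacobiSym] at hone
  unfold chi
  have h9 : p % 7 < 7 := Nat.mod_lt _ (by norm_num)
  generalize p % 7 = r at *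
  interval_cases r
  · exfalso; norm_num at hone
  · norm_num
  · norm_num
  · exfalso; norm_num at hone
  · norm_num
  · exfalso; norm_num at hone
  · exfalso; norm_num at hone

open Pool.Agent.Helper923.HMertens in
/-- the part of the small primes -/
lemma small_part : ∃ D : ℝ, 0 ≤ D ∧ ∀ a N : ℕ, 1 ≤ a → 1 ≤ N →
    ∑ p ∈ (Finset.Icc 1 a).filter Nat.Prime,
      ((∑ n ∈ Finset.Icc 1 N, (W n).factorization p : ℕ) : ℝ) * Real.log p ≤
      N * Real.log a + D * N + 4 * a * Real.log N := by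
  obtain ⟨C3, hC30, hC3⟩ := mertens_chi
  obtain ⟨C1, hC1⟩ := mertens_log
  obtain ⟨C2, hC20, hC2⟩ := sum_small_bound
  have hC10 : 0 ≤ C1 := (abs_nonneg _).trans (hC1 1 le_rfl)
  refine ⟨C1 + 2 * C2 + C3 + 3, by positivity, fun a N ha hN => ?_⟩
  have hN0 : (0 : ℝ) < N := by exact_mod_cast hN
  have hlN : 0 ≤ Real.log N := Real.log_nonneg (by exact_mod_cast hN)
  -- one prime
  have hone : ∀ p ∈ (Finset.Icc 1 a).filter Nat.Prime,
      ((∑ n ∈ Finset.Icc 1 N, (W n).factorization p : ℕ) : ℝ) * Real.log p ≤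
        (1 + chi p) * (N * (Real.log p / p + Real.log p / (p * (p - 1)))) + 4 * Real.log N +
          (if p = 7 then 3 * (N : ℝ) else 0) := by
    intro p hp
    rw [Finset.mem_filter] at hp
    have hpp := hp.2
    have hp2 : (2 : ℝ) ≤ p := by exact_mod_cast hpp.two_le
    have hlp : 0 ≤ Real.log p := Real.log_nonneg (by linarith)
    have hq0 : 0 ≤ Real.log p / p + Real.log p / (p * (p - 1)) := by
      have : (0 : ℝ) < p * (p - 1) := by nlinarith
      positivity
    by_cases h7 : p = 7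
    · subst h7
      rw [if_pos rfl]
      have h1 : ((∑ n ∈ Finset.Icc 1 N, (W n).factorization 7 : ℕ) : ℝ) ≤ N := by
        have : ∑ n ∈ Finset.Icc 1 N, (W n).factorization 7 ≤ ∑ n ∈ Finset.Icc 1 N, 1 :=
          Finset.sum_le_sum fun n hn => val_seven n (Finset.mem_Icc.1 hn).1
        rw [Finset.sum_const, Nat.card_Icc] at this
        have h2 : ∑ n ∈ Finset.Icc 1 N, (W n).factorization 7 ≤ N := by simpa using this
        exact_mod_cast h2
      have h8 : Real.log ((7 : ℕ) : ℝ) ≤ 3 := by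
        have h9 : Real.log ((7 : ℕ) : ℝ) ≤ Real.log (2 ^ 3 : ℝ) :=
          Real.log_le_log (by norm_num) (by norm_num)
        rw [Real.log_pow] at h9
        have := Real.log_two_lt_d9
        push_cast at h9 ⊢
        linarith
      have h10 : ((∑ n ∈ Finset.Icc 1 N, (W n).factorization 7 : ℕ) : ℝ) * Real.log ((7 : ℕ) : ℝ)
          ≤ N * 3 := by
        refine mul_le_mul h1 h8 hlp hN0.le
      have hc0 : (0 : ℝ) ≤ 1 + chi 7 := by have := (abs_le.1 (abs_chi 7)).1; linarith
      have h11 := mul_nonneg hc0 (mul_nonneg hN0.le hq0)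
      refine h10.trans ?_
      have h12 : (N : ℝ) * 3 = 0 + 0 + 3 * N := by ring
      rw [h12]
      exact add_le_add (add_le_add h11 (by positivity)) le_rfl
    · rw [if_neg h7, add_zero]
      by_cases hchi : chi p = 1
      swap
      · have hz : ∑ n ∈ Finset.Icc 1 N, (W n).factorization p = 0 := by
          refine Finset.sum_eq_zero fun n hn => ?_
          rw [Finset.mem_Icc] at hn
          refine Nat.factorization_eq_zero_of_not_dvd fun hd => hchi ?_
          exact chi_of_dvd p n hpp h7 hn.1 hd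
        rw [hz, Nat.cast_zero, zero_mul]
        have hc0 : (0 : ℝ) ≤ 1 + chi p := by have := (abs_le.1 (abs_chi p)).1; linarith
        have := mul_nonneg hc0 (mul_nonneg hN0.le hq0)
        linarith
      rw [hchi]
      have h1 := sum_val p N hpp h7
      have h2 : ((∑ n ∈ Finset.Icc 1 N, (W n).factorization p : ℕ) : ℝ) ≤
          ∑ k ∈ Finset.Icc 1 (Nat.log p (N ^ 2)), 2 * ((N : ℝ) / (p : ℝ) ^ k + 1) := by
        have h3 : ((∑ n ∈ Finset.Icc 1 N, (W n).factorization p : ℕ) : ℝ) ≤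
            ((∑ k ∈ Finset.Icc 1 (Nat.log p (N ^ 2)), 2 * (N / p ^ k + 1) : ℕ) : ℝ) := by
          exact_mod_cast h1
        refine h3.trans ?_
        push_cast
        refine Finset.sum_le_sum fun k _ => ?_
        have : ((N / p ^ k : ℕ) : ℝ) ≤ (N : ℝ) / ((p ^ k : ℕ) : ℝ) := Nat.cast_div_le
        push_cast at this
        linarith
      have h4 : ∑ k ∈ Finset.Icc 1 (Nat.log p (N ^ 2)), 2 * ((N : ℝ) / (p : ℝ) ^ k + 1) =
          2 * N * ∑ k ∈ Finset.Icc 1 (Nat.log p (N ^ 2)), (1 / (p : ℝ)) ^ k +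
            2 * (Nat.log p (N ^ 2) : ℝ) := by
        rw [Finset.mul_sum]
        have e1 : (2 * (Nat.log p (N ^ 2) : ℝ)) =
            ∑ k ∈ Finset.Icc 1 (Nat.log p (N ^ 2)), (2 : ℝ) := by
          rw [Finset.sum_const, Nat.card_Icc, nsmul_eq_mul]; push_cast; ring
        rw [e1, ← Finset.sum_add_distrib]
        refine Finset.sum_congr rfl fun k _ => ?_
        rw [div_pow, one_pow]; ring
      have hgeo : ∀ K : ℕ, ∑ k ∈ Finset.Icc 1 K, (1 / (p : ℝ)) ^ k ≤ 1 / ((p : ℝ) - 1) := by
        intro K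
        have hp1 : (0 : ℝ) < p - 1 := by linarith
        have hx : ∀ K : ℕ, ∑ k ∈ Finset.Icc 1 K, (1 / (p : ℝ)) ^ k =
            1 / ((p : ℝ) - 1) - (1 / (p : ℝ)) ^ K * (1 / ((p : ℝ) - 1)) := by
          intro K
          induction K with
          | zero => simp
          | succ K ih =>
            rw [Finset.sum_Icc_succ_top (by omega), ih, pow_succ]
            field_simp
            ring
        rw [hx K]
        have : 0 ≤ (1 / (p : ℝ)) ^ K * (1 / ((p : ℝ) - 1)) := by positivity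
        linarith
      have hlog : (Nat.log p (N ^ 2) : ℝ) * Real.log p ≤ 2 * Real.log N := by
        have h5 : p ^ Nat.log p (N ^ 2) ≤ N ^ 2 := Nat.pow_log_le_self p (by positivity)
        have h6 : Real.log ((p : ℝ) ^ Nat.log p (N ^ 2)) ≤ Real.log ((N : ℝ) ^ 2) := by
          refine Real.log_le_log (by positivity) ?_
          exact_mod_cast h5
        rw [Real.log_pow, Real.log_pow] at h6
        push_cast at h6
        exact h6
      have h7' := hgeo (Nat.log p (N ^ 2))
      have e2 : Real.log p / p + Real.log p / (p * (p - 1)) = 1 / ((p : ℝ) - 1) * Real.log p := by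
        have h1 : (p : ℝ) ≠ 0 := by positivity
        have h2 : (p : ℝ) - 1 ≠ 0 := by intro h; linarith
        field_simp
        ring
      calc ((∑ n ∈ Finset.Icc 1 N, (W n).factorization p : ℕ) : ℝ) * Real.log p
          ≤ (2 * N * (1 / ((p : ℝ) - 1)) + 2 * (Nat.log p (N ^ 2) : ℝ)) * Real.log p := by
            refine mul_le_mul_of_nonneg_right ?_ hlp
            refine h2.trans ?_
            rw [h4]
            have : 2 * (N : ℝ) * ∑ k ∈ Finset.Icc 1 (Nat.log p (N ^ 2)), (1 / (p : ℝ)) ^ k ≤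
              2 * N * (1 / ((p : ℝ) - 1)) := mul_le_mul_of_nonneg_left h7' (by positivity)
            linarith
        _ ≤ _ := by
            rw [e2]
            nlinarith
  refine (Finset.sum_le_sum hone).trans ?_
  rw [Finset.sum_add_distrib, Finset.sum_add_distrib]
  have h1 := (abs_le.1 (hC1 a ha)).2
  have h2 := hC2 a
  have h3 : ∑ p ∈ (Finset.Icc 1 a).filter Nat.Prime, 4 * Real.log N ≤ 4 * a * Real.log N := by
    rw [Finset.sum_const, nsmul_eq_mul]
    have h4 : (((Finset.Icc 1 a).filter Nat.Prime).card : ℝ) ≤ a := by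
      have h5 := Finset.card_filter_le (Finset.Icc 1 a) Nat.Prime
      rw [Nat.card_Icc] at h5
      have h6 : ((Finset.Icc 1 a).filter Nat.Prime).card ≤ a := by omega
      exact_mod_cast h6
    nlinarith
  have h4 : ∑ p ∈ (Finset.Icc 1 a).filter Nat.Prime, (if p = 7 then 3 * (N : ℝ) else 0) ≤
      3 * N := by
    rw [Finset.sum_ite_eq']
    split_ifs
    · exact le_rfl
    · positivity
  have h8 := (abs_le.1 (hC3 a ha)).2
  have h9 : ∑ p ∈ (Finset.Icc 1 a).filter Nat.Prime, chi p * (Real.log p / (p * (p - 1))) ≤ C2 := by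
    refine le_trans (Finset.sum_le_sum fun p hp => ?_) h2
    rw [Finset.mem_filter] at hp
    have hp2 : (2 : ℝ) ≤ p := by exact_mod_cast hp.2.two_le
    have hlp : 0 ≤ Real.log p := Real.log_nonneg (by linarith)
    have h10 : (0 : ℝ) < p * (p - 1) := by nlinarith
    have h11 : 0 ≤ Real.log p / (p * (p - 1)) := by positivity
    have h12 := (abs_le.1 (abs_chi p)).2
    nlinarith
  have h5 : ∑ p ∈ (Finset.Icc 1 a).filter Nat.Prime,
      (1 + chi p) * (N * (Real.log p / p + Real.log p / (p * (p - 1)))) =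
      N * (∑ p ∈ (Finset.Icc 1 a).filter Nat.Prime, Real.log p / p +
        ∑ p ∈ (Finset.Icc 1 a).filter Nat.Prime, Real.log p / (p * (p - 1)) +
        ∑ p ∈ (Finset.Icc 1 a).filter Nat.Prime, chi p * (Real.log p / p) +
        ∑ p ∈ (Finset.Icc 1 a).filter Nat.Prime, chi p * (Real.log p / (p * (p - 1)))) := by
    rw [← Finset.sum_add_distrib, ← Finset.sum_add_distrib, ← Finset.sum_add_distrib,
      Finset.mul_sum]
    refine Finset.sum_congr rfl fun p _ => ?_
    ring
  rw [h5]
  have h6 : ∑ p ∈ (Finset.Icc 1 a).filter Nat.Prime, Real.log p / p +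
        ∑ p ∈ (Finset.Icc 1 a).filter Nat.Prime, Real.log p / (p * (p - 1)) +
        ∑ p ∈ (Finset.Icc 1 a).filter Nat.Prime, chi p * (Real.log p / p) +
        ∑ p ∈ (Finset.Icc 1 a).filter Nat.Prime, chi p * (Real.log p / (p * (p - 1))) ≤
      Real.log a + (C1 + 2 * C2 + C3) := by
    linarith
  have h7 := mul_le_mul_of_nonneg_left h6 hN0.le
  linarith

/-- the sum of the logarithms from below -/
lemma log_lower (N : ℕ) (hN : 1 ≤ N) :
    2 * (N * Real.log N) - 4 * N ≤ ∑ n ∈ Finset.Icc 1 N, Real.log (W n) := by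
  have hN0 : (0 : ℝ) < N := by exact_mod_cast hN
  have hN1 : (1 : ℝ) ≤ N := by exact_mod_cast hN
  have hlo : N * Real.log N - N ≤ Real.log (N.factorial : ℝ) := by
    have h1 := Stirling.le_log_factorial_stirling (n := N) (by omega)
    have h2 : 0 ≤ Real.log N := Real.log_nonneg hN1
    have h3 : 0 ≤ Real.log (2 * Real.pi) := Real.log_nonneg (by linarith [Real.pi_gt_three])
    linarith
  have hfac : ∀ M : ℕ, Real.log (M.factorial : ℝ) = ∑ n ∈ Finset.Icc 1 M, Real.log n := by
    intro M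
    induction M with
    | zero => simp
    | succ M ih =>
      rw [Finset.sum_Icc_succ_top (by omega), ← ih, Nat.factorial_succ]
      push_cast
      rw [Real.log_mul (by positivity) (by positivity), add_comm]
  have hterm : ∀ n ∈ Finset.Icc 1 N, 2 * Real.log n - 2 ≤ Real.log (W n) := by
    intro n hn
    rw [Finset.mem_Icc] at hn
    have hn0 : (0 : ℝ) < n := by exact_mod_cast hn.1
    have h1 : ((n : ℝ) ^ 2) ≤ 2 ^ 2 * (W n : ℝ) := by
      have := W_lower n hn.1
      have h2 : ((n ^ 2 : ℕ) : ℝ) ≤ ((4 * W n : ℕ) : ℝ) := by exact_mod_cast this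
      push_cast at h2
      linarith
    have h2 := Real.log_le_log (by positivity) h1
    have hW0 : (0 : ℝ) < W n := by exact_mod_cast W_pos n
    rw [Real.log_mul (by norm_num) hW0.ne', Real.log_pow, Real.log_pow] at h2
    have := Real.log_two_lt_d9
    push_cast at h2
    linarith
  have h1 := Finset.sum_le_sum hterm
  rw [Finset.sum_sub_distrib, ← Finset.mul_sum, ← hfac N, Finset.sum_const, Nat.card_Icc,
    nsmul_eq_mul] at h1
  have h2 : ((N + 1 - 1 : ℕ) : ℝ) = N := by simp
  rw [h2] at h1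
  linarith

/-- **density**: the `n` with `¬ Tiles (TOne n)` have lower density at least `3 / 4` -/
theorem dens_one (ε : ℝ) (hε : 0 < ε) : ∀ᶠ N : ℕ in atTop,
    (3 / 4 - ε) * N ≤ ({n : ℕ | n ≤ N ∧ ¬ Tiles (TOne n)}.ncard : ℝ) := by
  classical
  obtain ⟨D, hD0, hD⟩ := small_part
  have hlim : Tendsto (fun N : ℕ => (D + 24) / Real.log N) atTop (𝓝 0) :=
    tendsto_const_nhds.div_atTop
      (Real.tendsto_log_atTop.comp (tendsto_natCast_atTop_atTop (R := ℝ)))
  have hev := hlim.eventually (gt_mem_nhds (show (0 : ℝ) < ε by linarith))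
  filter_upwards [hev, eventually_ge_atTop 100] with N hN hN100
  set s := Nat.sqrt N with hs
  set a := s + 4 with ha
  have hs1 : s * s ≤ N := Nat.sqrt_le N
  have hs2 : N < (s + 1) * (s + 1) := Nat.lt_succ_sqrt N
  have hs10 : 10 ≤ s := by
    rw [hs]; exact Nat.le_sqrt.2 (by omega)
  have hN0 : (0 : ℝ) < N := by exact_mod_cast (by omega : 0 < N)
  have hx : 0 < Real.log N := Real.log_pos (by exact_mod_cast (by omega : 1 < N))
  have ha0 : (0 : ℝ) < a := by exact_mod_cast (by omega : 0 < a)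
  have hlog2 := Real.log_two_gt_d9
  have hlog2' := Real.log_two_lt_d9
  have ha4 : (a : ℝ) ^ 2 ≤ 4 * N := by
    have : a ^ 2 ≤ 4 * N := by nlinarith
    exact_mod_cast this
  have hla2 : Real.log a ≤ Real.log N / 2 + Real.log 2 := by
    have h1 : Real.log ((a : ℝ) ^ 2) ≤ Real.log (4 * N) := Real.log_le_log (by positivity) ha4
    rw [Real.log_pow, Real.log_mul (by norm_num) hN0.ne', show (4 : ℝ) = 2 ^ 2 by norm_num,
      Real.log_pow] at h1
    push_cast at h1
    linarith
  have halog : (a : ℝ) * Real.log N ≤ 4 * N := by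
    have h1 : (a : ℝ) ≤ 2 * Real.sqrt N := by
      have h2 : Real.sqrt ((a : ℝ) ^ 2) ≤ Real.sqrt (4 * N) := Real.sqrt_le_sqrt ha4
      rw [Real.sqrt_sq ha0.le, Real.sqrt_mul (by norm_num),
        show (4 : ℝ) = 2 ^ 2 by norm_num, Real.sqrt_sq (by norm_num)] at h2
      exact h2
    have h2 : Real.log N ≤ 2 * Real.sqrt N := by
      have h3 : Real.log (Real.sqrt N) ≤ Real.sqrt N - 1 :=
        Real.log_le_sub_one_of_pos (Real.sqrt_pos.2 hN0)
      rw [Real.log_sqrt hN0.le] at h3
      linarith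
    have h3 : Real.sqrt N * Real.sqrt N = N := Real.mul_self_sqrt hN0.le
    have h4 := mul_le_mul h1 h2 hx.le (by positivity)
    nlinarith
  -- good and bad
  set G := (Finset.Icc 1 N).filter (fun n => ∃ p, p.Prime ∧ a < p ∧ p ∣ W n) with hG
  set B := (Finset.Icc 1 N).filter (fun n => ¬ ∃ p, p.Prime ∧ a < p ∧ p ∣ W n) with hB
  have hsum : ∑ n ∈ G, Real.log (W n) + ∑ n ∈ B, Real.log (W n) =
      ∑ n ∈ Finset.Icc 1 N, Real.log (W n) := by
    rw [hG, hB]
    exact Finset.sum_filter_add_sum_filter_not _ _ _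
  have hGs : ∑ n ∈ G, Real.log (W n) ≤ G.card * (2 * Real.log N) := by
    rw [← nsmul_eq_mul]
    refine Finset.sum_le_card_nsmul _ _ _ fun n hn => ?_
    rw [hG, Finset.mem_filter, Finset.mem_Icc] at hn
    have h1 := W_upper n N hn.1.1 hn.1.2
    have h2 : Real.log (W n) ≤ Real.log ((N : ℝ) ^ 2) := by
      refine Real.log_le_log (by exact_mod_cast W_pos n) ?_
      exact_mod_cast h1
    rw [Real.log_pow] at h2
    push_cast at h2
    exact h2
  have hBs : ∑ n ∈ B, Real.log (W n) ≤ N * Real.log a + D * N + 4 * a * Real.log N := by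
    refine le_trans ?_ (hD a N (by omega) (by omega))
    have h1 : ∀ n ∈ B, Real.log (W n) = ∑ p ∈ (Finset.Icc 1 a).filter Nat.Prime,
        ((W n).factorization p : ℝ) * Real.log p := by
      intro n hn
      rw [hB, Finset.mem_filter] at hn
      rw [Real.log_nat_eq_sum_factorization, Finsupp.sum]
      refine Finset.sum_subset ?_ ?_
      · intro p hp
        rw [Nat.support_factorization, Nat.mem_primeFactors] at hp
        rw [Finset.mem_filter, Finset.mem_Icc]
        refine ⟨⟨hp.1.one_lt.le, ?_⟩, hp.1⟩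
        by_contra hcon
        exact hn.2 ⟨p, hp.1, by omega, hp.2.1⟩
      · intro p _ hp
        rw [Finsupp.notMem_support_iff] at hp
        rw [hp]; simp
    rw [Finset.sum_congr rfl h1, Finset.sum_comm]
    refine Finset.sum_le_sum fun p hp => ?_
    rw [Finset.mem_filter] at hp
    rw [← Finset.sum_mul]
    refine mul_le_mul_of_nonneg_right ?_ (Real.log_nonneg (by exact_mod_cast hp.2.one_lt.le))
    have h2 : ∑ n ∈ B, (W n).factorization p ≤ ∑ n ∈ Finset.Icc 1 N, (W n).factorization p :=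
      Finset.sum_le_sum_of_subset (Finset.filter_subset _ _)
    exact_mod_cast h2
  have hlow := log_lower N (by omega)
  -- the good `n` do not tile
  have hGc : (G.card : ℝ) ≤ ({n : ℕ | n ≤ N ∧ ¬ Tiles (TOne n)}.ncard : ℝ) := by
    have hfin : {n : ℕ | n ≤ N ∧ ¬ Tiles (TOne n)}.Finite :=
      (Set.finite_le_nat N).subset fun n hn => hn.1
    have : G.card ≤ {n : ℕ | n ≤ N ∧ ¬ Tiles (TOne n)}.ncard := by
      rw [← Set.ncard_coe_finset]
      refine Set.ncard_le_ncard ?_ hfin
      intro n hn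
      rw [Finset.mem_coe, hG, Finset.mem_filter, Finset.mem_Icc] at hn
      obtain ⟨⟨h1, h2⟩, p, hp, hap, hd⟩ := hn
      refine ⟨h2, prime_one n p hp hd ?_⟩
      have : (s + 4) ≤ p - 1 := by omega
      nlinarith [Nat.pow_le_pow_left this 2]
    exact_mod_cast this
  refine le_trans ?_ hGc
  have hkey : 3 / 2 * (N * Real.log N) - (D + 24) * N ≤ G.card * (2 * Real.log N) := by
    have h1 : N * Real.log a ≤ N * (Real.log N / 2 + Real.log 2) :=
      mul_le_mul_of_nonneg_left hla2 hN0.le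
    have h2 : (N : ℝ) * Real.log 2 ≤ 4 * N := by nlinarith
    nlinarith
  have hN' : D + 24 < ε * Real.log N := by
    rwa [div_lt_iff₀ hx] at hN
  have h5 : (3 / 4 - ε) * N * (2 * Real.log N) ≤ G.card * (2 * Real.log N) := by
    refine le_trans ?_ hkey
    have h6 : (D + 24) * N ≤ ε * Real.log N * N := mul_le_mul_of_nonneg_right hN'.le hN0.le
    have h7 : 0 ≤ ε * Real.log N * N := by positivity
    nlinarith
  exact le_of_mul_le_mul_right h5 (by positivity)

end Pool.Agent.Run7.h215.TIL
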