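import Pool.Agent.Run7.h215.TIL.DensStar
import Pool.Agent.Run7.h215.TIL.DensOne

set_option autoImplicit false

/-! # Tilings of the symmetric group: both sets together -/

namespace Pool.Agent.Run7.h215.TIL

open Finset Filter Topology

lemma inter_count (N : ℕ) (P Q : ℕ → Prop) :
    ({n : ℕ | n ≤ N ∧ P n}.ncard : ℝ) + ({n : ℕ | n ≤ N ∧ Q n}.ncard : ℝ) ≤
      ({n : ℕ | n ≤ N ∧ P n ∧ Q n}.ncard : ℝ) + (N + 1) := by
  have hA : {n : ℕ | n ≤ N ∧ P n}.Finite := (Set.finite_le_nat N).subset fun n hn => hn.1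
  have hB : {n : ℕ | n ≤ N ∧ Q n}.Finite := (Set.finite_le_nat N).subset fun n hn => hn.1
  have h1 := Set.ncard_union_add_ncard_inter {n : ℕ | n ≤ N ∧ P n} {n : ℕ | n ≤ N ∧ Q n} hA hB
  have h2 : ({n : ℕ | n ≤ N ∧ P n} ∪ {n : ℕ | n ≤ N ∧ Q n}).ncard ≤ N + 1 := by
    have h3 : {n : ℕ | n ≤ N}.ncard = N + 1 := by
      have : {n : ℕ | n ≤ N} = ((Finset.range (N + 1) : Finset ℕ) : Set ℕ) := by
        ext n; simp
      rw [this, Set.ncard_coe_finset, Finset.card_range]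
    rw [← h3]
    refine Set.ncard_le_ncard ?_ (Set.finite_le_nat N)
    rintro n (hn | hn) <;> exact hn.1
  have h3 : {n : ℕ | n ≤ N ∧ P n} ∩ {n : ℕ | n ≤ N ∧ Q n} = {n : ℕ | n ≤ N ∧ P n ∧ Q n} := by
    ext n
    constructor
    · rintro ⟨h1, h2⟩
      exact ⟨h1.1, h1.2, h2.2⟩
    · rintro ⟨h1, h2, h3⟩
      exact ⟨⟨h1, h2⟩, ⟨h1, h3⟩⟩
  rw [h3] at h1
  have h4 : {n : ℕ | n ≤ N ∧ P n}.ncard + {n : ℕ | n ≤ N ∧ Q n}.ncard ≤
      {n : ℕ | n ≤ N ∧ P n ∧ Q n}.ncard + (N + 1) := by omega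
  exact_mod_cast h4

/-- two lower densities with sum bigger than one -/
theorem dens_inter (α β : ℝ) (P Q : ℕ → Prop)
    (hP : ∀ ε : ℝ, 0 < ε → ∀ᶠ N : ℕ in atTop, (α - ε) * N ≤ ({n : ℕ | n ≤ N ∧ P n}.ncard : ℝ))
    (hQ : ∀ ε : ℝ, 0 < ε → ∀ᶠ N : ℕ in atTop, (β - ε) * N ≤ ({n : ℕ | n ≤ N ∧ Q n}.ncard : ℝ))
    (ε : ℝ) (hε : 0 < ε) : ∀ᶠ N : ℕ in atTop,
      (α + β - 1 - ε) * N ≤ ({n : ℕ | n ≤ N ∧ P n ∧ Q n}.ncard : ℝ) := by
  have hlim : Tendsto (fun N : ℕ => (1 : ℝ) / N) atTop (𝓝 0) :=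
    tendsto_const_nhds.div_atTop tendsto_natCast_atTop_atTop
  filter_upwards [hP (ε / 3) (by linarith), hQ (ε / 3) (by linarith),
    hlim.eventually (gt_mem_nhds (show (0 : ℝ) < ε / 3 by linarith)), eventually_ge_atTop 1]
    with N h1 h2 h3 h4
  have hN0 : (0 : ℝ) < N := by exact_mod_cast h4
  rw [div_lt_iff₀ hN0] at h3
  have h5 := inter_count N P Q
  nlinarith

/-- **density**: both -/
theorem dens_both (ε : ℝ) (hε : 0 < ε) : ∀ᶠ N : ℕ in atTop,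
    (Real.log 2 - 1 / 4 - ε) * N ≤
      ({n : ℕ | n ≤ N ∧ ¬ Tiles (TStar n) ∧ ¬ Tiles (TOne n)}.ncard : ℝ) := by
  have h := dens_inter (Real.log 2) (3 / 4) (fun n => ¬ Tiles (TStar n)) (fun n => ¬ Tiles (TOne n))
    dens_star dens_one ε hε
  filter_upwards [h] with N hN
  have e : Real.log 2 - 1 / 4 - ε = Real.log 2 + 3 / 4 - 1 - ε := by ring
  rw [e]
  exact hN

end Pool.Agent.Run7.h215.TIL
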