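import Pool.Agent.Run7.h215.TIL.Core
import Pool.Agent.Helper923.HMertens

set_option autoImplicit false

/-! # Tilings of the symmetric group: the lower density for the transpositions -/

namespace Pool.Agent.Run7.h215.TIL

open Finset Filter Topology Pool.Agent.Helper923.HMertens

/-- the primes in `(a, N]` -/
lemma card_primes_le (a N : ℕ) (ha : 2 ≤ a) :
    (((Finset.Ioc a N).filter Nat.Prime).card : ℝ) * Real.log a ≤ 2 * N := by
  refine le_trans ?_ (theta_le N)
  calc (((Finset.Ioc a N).filter Nat.Prime).card : ℝ) * Real.log a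
      = ∑ p ∈ (Finset.Ioc a N).filter Nat.Prime, Real.log a := by
        rw [Finset.sum_const, nsmul_eq_mul]
    _ ≤ ∑ p ∈ (Finset.Ioc a N).filter Nat.Prime, Real.log p := by
        refine Finset.sum_le_sum fun p hp => ?_
        rw [Finset.mem_filter, Finset.mem_Ioc] at hp
        exact Real.log_le_log (by exact_mod_cast (by omega : 0 < a)) (by exact_mod_cast hp.1.1.le)
    _ ≤ ∑ p ∈ (Finset.Icc 1 N).filter Nat.Prime, Real.log p := by
        refine Finset.sum_le_sum_of_subset_of_nonneg ?_ ?_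
        · intro p hp
          rw [Finset.mem_filter, Finset.mem_Ioc] at hp
          rw [Finset.mem_filter, Finset.mem_Icc]
          exact ⟨⟨by omega, hp.1.2⟩, hp.2⟩
        · intro p hp _
          rw [Finset.mem_filter] at hp
          exact Real.log_nonneg (by exact_mod_cast hp.2.one_lt.le)

/-- counting the multiples of the primes in `(a, N]` -/
lemma count_mult (a N : ℕ) (h : N < a * a) (Z : Set ℕ)
    (hZ : ∀ p n : ℕ, p.Prime → a < p → p ∣ n → 1 ≤ n → n ≤ N → n ∈ Z) :
    ∑ p ∈ (Finset.Ioc a N).filter Nat.Prime, N / p ≤ {n : ℕ | n ≤ N ∧ n ∈ Z}.ncard := by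
  classical
  have hfin : {n : ℕ | n ≤ N ∧ n ∈ Z}.Finite := (Set.finite_le_nat N).subset fun n hn => hn.1
  set F : Finset ℕ := ((Finset.Ioc a N).filter Nat.Prime).biUnion
    (fun p => (Finset.Icc 1 (N / p)).image (fun k => k * p)) with hF
  have hcard : F.card = ∑ p ∈ (Finset.Ioc a N).filter Nat.Prime, N / p := by
    rw [hF, Finset.card_biUnion]
    · refine Finset.sum_congr rfl fun p hp => ?_
      rw [Finset.mem_filter] at hp
      rw [Finset.card_image_of_injective _ (fun x y hxy => Nat.eq_of_mul_eq_mul_right hp.2.pos hxy)]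
      simp
    · intro p hp q hq hpq
      rw [Finset.mem_coe, Finset.mem_filter, Finset.mem_Ioc] at hp hq
      change Disjoint (Finset.image _ _) (Finset.image _ _)
      rw [Finset.disjoint_left]
      intro n h1 h2
      rw [Finset.mem_image] at h1 h2
      obtain ⟨k, hk, rfl⟩ := h1
      obtain ⟨l, hl, hkl⟩ := h2
      rw [Finset.mem_Icc] at hk hl
      have e1 : k * p ≤ N := (Nat.le_div_iff_mul_le hp.2.pos).1 hk.2
      have e2 : p * q ∣ k * p := by
        refine Nat.Coprime.mul_dvd_of_dvd_of_dvd ((Nat.coprime_primes hp.2 hq.2).2 hpq)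
          (Dvd.intro_left _ rfl) ?_
        rw [← hkl]; exact Dvd.intro_left _ rfl
      have e3 := Nat.le_of_dvd (Nat.mul_pos hk.1 hp.2.pos) e2
      have e4 : a * a ≤ p * q := Nat.mul_le_mul hp.1.1.le hq.1.1.le
      omega
  rw [← hcard, ← Set.ncard_coe_finset]
  refine Set.ncard_le_ncard ?_ hfin
  intro n hn
  rw [Finset.mem_coe, hF, Finset.mem_biUnion] at hn
  obtain ⟨p, hp, hn⟩ := hn
  rw [Finset.mem_filter, Finset.mem_Ioc] at hp
  rw [Finset.mem_image] at hn
  obtain ⟨k, hk, rfl⟩ := hn
  rw [Finset.mem_Icc] at hk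
  have e1 : k * p ≤ N := (Nat.le_div_iff_mul_le hp.2.pos).1 hk.2
  exact ⟨e1, hZ p (k * p) hp.2 hp.1.1 (Dvd.intro_left _ rfl) (Nat.mul_pos hk.1 hp.2.pos) e1⟩

/-- the limit used -/
lemma lim_aux (D : ℝ) : Tendsto (fun x : ℝ => Real.log (x / (x / 2 + Real.log 2)) - D / x) atTop
    (𝓝 (Real.log 2)) := by
  have h1 : Tendsto (fun x : ℝ => D / x) atTop (𝓝 0) := tendsto_const_nhds.div_atTop tendsto_id
  have h2 : Tendsto (fun x : ℝ => Real.log 2 / x) atTop (𝓝 0) :=
    tendsto_const_nhds.div_atTop tendsto_id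
  have h3 : Tendsto (fun x : ℝ => 1 / (1 / 2 + Real.log 2 / x)) atTop (𝓝 (1 / (1 / 2 + 0))) :=
    tendsto_const_nhds.div (tendsto_const_nhds.add h2) (by norm_num)
  have h4 : Tendsto (fun x : ℝ => x / (x / 2 + Real.log 2)) atTop (𝓝 2) := by
    have : (1 / (1 / 2 + 0) : ℝ) = 2 := by norm_num
    rw [this] at h3
    refine h3.congr' ?_
    filter_upwards [eventually_gt_atTop 0] with x hx
    have := Real.log_two_gt_d9
    have h5 : x / 2 + Real.log 2 ≠ 0 := by positivity
    have h6 : (1 / 2 + Real.log 2 / x) ≠ 0 := by positivity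
    field_simp
  have h5 := (h4.log (by norm_num)).sub h1
  simpa using h5

/-- **density**: the `n` with `¬ Tiles (TStar n)` have lower density at least `log 2` -/
theorem dens_star (ε : ℝ) (hε : 0 < ε) : ∀ᶠ N : ℕ in atTop,
    (Real.log 2 - ε) * N ≤ ({n : ℕ | n ≤ N ∧ ¬ Tiles (TStar n)}.ncard : ℝ) := by
  obtain ⟨C, hC0, hC⟩ := mertens_ratio
  have hlim := (lim_aux (2 * C + 4)).comp
    (Real.tendsto_log_atTop.comp (tendsto_natCast_atTop_atTop (R := ℝ)))
  have hev := hlim.eventually (lt_mem_nhds (show Real.log 2 - ε < Real.log 2 by linarith))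
  filter_upwards [hev, eventually_ge_atTop 100] with N hN hN100
  simp only [Function.comp_apply] at hN
  set s := Nat.sqrt N with hs
  set a := s + 4 with ha
  have hs1 : s * s ≤ N := Nat.sqrt_le N
  have hs2 : N < (s + 1) * (s + 1) := Nat.lt_succ_sqrt N
  have hs10 : 10 ≤ s := by
    rw [hs]; exact Nat.le_sqrt.2 (by omega)
  have haN : a ≤ N := by nlinarith
  have haa : N < a * a := by nlinarith
  have hcount := count_mult a N haa {n | ¬ Tiles (TStar n)} (by
    intro p n hp hap hpn hn1 hnN
    have hpn' := Nat.le_of_dvd (by omega) hpn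
    refine prime_star n p hp (hp.two_le.trans hpn') (hpn.mul_right _) ?_
    have : (s + 4) ≤ p - 1 := by omega
    nlinarith [Nat.pow_le_pow_left this 2])
  have hN0 : (0 : ℝ) < N := by exact_mod_cast (by omega : 0 < N)
  have hx : 0 < Real.log N := Real.log_pos (by exact_mod_cast (by omega : 1 < N))
  have ha0 : (0 : ℝ) < a := by exact_mod_cast (by omega : 0 < a)
  have hlog2 := Real.log_two_gt_d9
  -- `log a`
  have hla1 : Real.log N / 2 ≤ Real.log a := by
    have : Real.log N ≤ Real.log ((a : ℝ) ^ 2) := by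
      refine Real.log_le_log hN0 ?_
      have : N ≤ a ^ 2 := by nlinarith
      exact_mod_cast this
    rw [Real.log_pow] at this
    push_cast at this
    linarith
  have hla2 : Real.log a ≤ Real.log N / 2 + Real.log 2 := by
    have h1 : Real.log ((a : ℝ) ^ 2) ≤ Real.log (4 * N) := by
      refine Real.log_le_log (by positivity) ?_
      have : a ^ 2 ≤ 4 * N := by nlinarith
      exact_mod_cast this
    rw [Real.log_pow, Real.log_mul (by norm_num) hN0.ne', show (4 : ℝ) = 2 ^ 2 by norm_num,
      Real.log_pow] at h1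
    push_cast at h1
    linarith
  have hla0 : 0 < Real.log a := by linarith
  have hm := (abs_le.1 (hC a N (by omega) haN)).1
  have hcp := card_primes_le a N (by omega)
  -- the sum of the integer parts
  have hsum : (N : ℝ) * ∑ p ∈ (Finset.Ioc a N).filter Nat.Prime, (1 : ℝ) / p -
      (((Finset.Ioc a N).filter Nat.Prime).card : ℝ) ≤
      ((∑ p ∈ (Finset.Ioc a N).filter Nat.Prime, N / p : ℕ) : ℝ) := by
    push_cast
    rw [Finset.mul_sum, Finset.card_eq_sum_ones]
    push_cast
    rw [← Finset.sum_sub_distrib]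
    refine Finset.sum_le_sum fun p hp => ?_
    rw [Finset.mem_filter] at hp
    have h1 := Nat.lt_div_mul_add (a := N) hp.2.pos
    have hp0 : (0 : ℝ) < p := by exact_mod_cast hp.2.pos
    have h2 : (N : ℝ) < ((N / p : ℕ) : ℝ) * p + p := by exact_mod_cast h1
    rw [mul_one_div, sub_le_iff_le_add, div_le_iff₀ hp0]
    nlinarith
  have hlogs : Real.log (Real.log N / (Real.log N / 2 + Real.log 2)) ≤
      Real.log (Real.log N / Real.log a) := by
    refine Real.log_le_log (by positivity) ?_
    exact div_le_div_of_nonneg_left hx.le hla0 hla2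
  have hCa : C / Real.log a ≤ 2 * C / Real.log N := by
    rw [div_le_div_iff₀ hla0 hx]
    nlinarith
  have hcard : (((Finset.Ioc a N).filter Nat.Prime).card : ℝ) ≤ 4 * N / Real.log N := by
    rw [le_div_iff₀ hx]
    have : (0 : ℝ) ≤ (((Finset.Ioc a N).filter Nat.Prime).card : ℝ) := by positivity
    nlinarith
  have hfin : (Real.log 2 - ε) * N ≤
      (N : ℝ) * (Real.log (Real.log N / (Real.log N / 2 + Real.log 2)) -
        (2 * C + 4) / Real.log N) := by
    rw [mul_comm]
    exact mul_le_mul_of_nonneg_left hN.le hN0.le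
  have hmul : (N : ℝ) * (Real.log (Real.log N / (Real.log N / 2 + Real.log 2)) -
        2 * C / Real.log N) ≤
      (N : ℝ) * ∑ p ∈ (Finset.Ioc a N).filter Nat.Prime, (1 : ℝ) / p := by
    refine mul_le_mul_of_nonneg_left ?_ hN0.le
    linarith
  have hc : ((∑ p ∈ (Finset.Ioc a N).filter Nat.Prime, N / p : ℕ) : ℝ) ≤
      ({n : ℕ | n ≤ N ∧ ¬ Tiles (TStar n)}.ncard : ℝ) := by exact_mod_cast hcount
  have hsplit : (N : ℝ) * (Real.log (Real.log N / (Real.log N / 2 + Real.log 2)) -
        (2 * C + 4) / Real.log N) =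
      (N : ℝ) * (Real.log (Real.log N / (Real.log N / 2 + Real.log 2)) -
        2 * C / Real.log N) - 4 * N / Real.log N := by
    field_simp
    ring
  linarith

end Pool.Agent.Run7.h215.TIL
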